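import Pool.Agent.LYL.Ext

/-!
The linear case of the infinite Lucchesi-Younger conjecture: `D` is weakly connected and any two
source sides of finite dicuts meet and do not cover the vertex set.
-/

set_option autoImplicit false

namespace Pool.Agent.Results.MP_1e1a68_co.LinearClass

open Pool.Agent.LYL

/-- `X` is the source side of a finite dicut: no arc enters `X` and the set of arcs leaving `X`
is finite and nonempty. -/
def Source {V A : Type} (tail head : A → V) (X : Set V) : Prop :=
  (∀ a : A, head a ∈ X → tail a ∈ X) ∧ {a : A | tail a ∈ X ∧ head a ∉ X}.Finite ∧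
    {a : A | tail a ∈ X ∧ head a ∉ X}.Nonempty

/-- Every digraph that is weakly connected and in which any two source sides of finite dicuts
intersect and do not cover all vertices has a family of pairwise disjoint finite dicuts and an
arc set `F`, inside their union and meeting each of them in exactly one arc, such that `F` meets
every finite dicut. -/
theorem result (V A : Type) (tail head : A → V)
    (hconn : ∀ X : Set V, X.Nonempty → (∀ a : A, tail a ∈ X ↔ head a ∈ X) → X = Set.univ)
    (hlin : ∀ X Y : Set V, Source tail head X → Source tail head Y →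
      (X ∩ Y).Nonempty ∧ X ∪ Y ≠ Set.univ) :
    ∃ (𝒞 : Set (Set A)) (F : Set A),
      (∀ C ∈ 𝒞, C.Finite ∧ C.Nonempty ∧
          ∃ X : Set V, (∀ a : A, head a ∈ X → tail a ∈ X) ∧
            C = {a : A | tail a ∈ X ∧ head a ∉ X}) ∧
      (∀ C ∈ 𝒞, ∀ C' ∈ 𝒞, C ≠ C' → Disjoint C C') ∧
      F ⊆ ⋃₀ 𝒞 ∧
      (∀ C ∈ 𝒞, ∃ a : A, C ∩ F = {a}) ∧
      (∀ C : Set A, C.Finite → C.Nonempty →
          (∃ X : Set V, (∀ a : A, head a ∈ X → tail a ∈ X) ∧
            C = {a : A | tail a ∈ X ∧ head a ∉ X}) →
          (C ∩ F).Nonempty) := by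
  have hW : WC tail head := by
    intro X hX hc hd
    refine hconn X hX fun a => ⟨fun h => ?_, hc a⟩
    by_contra h2
    have : a ∈ dcut tail head X := ⟨h, h2⟩
    rw [hd] at this
    exact this
  have hL : Lin tail head := hlin
  -- the theorem when every vertex is avoided by some source side
  have step1 : ∀ (V A : Type) (tail head : A → V), WC tail head → Lin tail head →
      (∀ v, ∃ X, Good tail head X ∧ v ∉ X) → Concl tail head := by
    intro V A tail head hW hL hS
    by_cases hT : ∀ v, ∃ X, Good tail head X ∧ v ∈ X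
    · exact two hW hL hT hS
    · push Not at hT
      obtain ⟨t, ht⟩ := hT
      exact ext_concl (t := t) hW ht
        (two (ext_WC hW) (ext_Lin hW hL ht) (fun v => ext_TI v) (fun v => ext_SI ht hS v))
  by_cases hS : ∀ v, ∃ X, Good tail head X ∧ v ∉ X
  · exact step1 V A tail head hW hL hS
  · push Not at hS
    obtain ⟨s, hs⟩ := hS
    have ht : ∀ X, Good head tail X → s ∉ X := by
      intro X hX h
      exact hs Xᶜ hX.rev h
    have h1 : Concl (xt head s) (xh tail) := by
      refine Concl.rev (step1 _ _ _ _ (ext_WC hW.rev).rev (ext_Lin hW.rev hL.rev ht).rev ?_)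
      intro v
      obtain ⟨X, hX, hv⟩ := ext_TI (tail := head) (head := tail) (t := s) v
      exact ⟨Xᶜ, hX.rev, fun h => h hv⟩
    exact (ext_concl (t := s) hW.rev ht h1).rev

end Pool.Agent.Results.MP_1e1a68_co.LinearClass
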