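import Pool.Agent.LY.Finite

/-!
The infinite Lucchesi-Younger conjecture: strongly maximal packings, repair of finite errors,
finite escape number, and the local-global principle over finite separators.
-/

namespace Pool.Agent.Results.MP_1e1a68_co.LocalGlobal

open Pool.Agent.LY (Closed cut Dc load ind lucchesi_younger)

variable {V A : Type}

/-- A finite dicut, as a set of edges. -/
def FDicut (tail head : A → V) (S : Set A) : Prop :=
  S.Finite ∧ S.Nonempty ∧ ∃ X : Set V, (∀ a : A, head a ∈ X → tail a ∈ X) ∧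
    S = {a : A | tail a ∈ X ∧ head a ∉ X}

/-- A family of pairwise disjoint finite dicuts. -/
structure Packing (tail head : A → V) (C : Set (Set A)) : Prop where
  dicut : ∀ S ∈ C, FDicut tail head S
  disj : ∀ S ∈ C, ∀ T ∈ C, (S ∩ T).Nonempty → S = T

/-- `(C, F)` is an admissible pair and `F` meets every finite dicut. -/
structure Pair (tail head : A → V) (C : Set (Set A)) (F : Set A) : Prop where
  packing : Packing tail head C
  sub : F ⊆ ⋃₀ C
  one : ∀ S ∈ C, ∃ a : A, S ∩ F = {a}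
  meets : ∀ S : Set A, FDicut tail head S → (S ∩ F).Nonempty

/-- The conclusion of the conjecture for one digraph. -/
def HasPair (tail head : A → V) : Prop :=
  ∃ (C : Set (Set A)) (F : Set A), Pair tail head C F

/-- `C` and `D` differ in finitely many members. -/
def Near (C D : Set (Set A)) : Prop := (C \ D).Finite ∧ (D \ C).Finite

/-- `C` is a packing, and exchanging finitely many members never increases the number of
members. -/
def StronglyMaximal (tail head : A → V) (C : Set (Set A)) : Prop :=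
  Packing tail head C ∧ ∀ D, Packing tail head D → Near C D → (D \ C).ncard ≤ (C \ D).ncard

/-- A finite dibond: a minimal finite dicut. -/
def Bond (tail head : A → V) (S : Set A) : Prop :=
  FDicut tail head S ∧ ∀ T ⊆ S, FDicut tail head T → T = S

/-- Escape number at most `k`: for every finite edge set `E₀` there is a finite edge set `E₁`
such that among any `k + 1` disjoint finite dibonds meeting `E₀` one is contained in `E₁`. -/
def Escape (tail head : A → V) (k : ℕ) : Prop :=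
  ∀ E₀ : Set A, E₀.Finite → ∃ E₁ : Set A, E₁.Finite ∧ ∀ B : Fin (k + 1) → Set A,
    (∀ i, Bond tail head (B i) ∧ (B i ∩ E₀).Nonempty) → (∀ i j, i ≠ j → Disjoint (B i) (B j)) →
    ∃ i, B i ⊆ E₁

/-- `X` induces a weakly connected subdigraph. -/
def Conn (tail head : A → V) (X : Set V) : Prop :=
  ∀ S ⊆ X, S.Nonempty → (∀ a, tail a ∈ X → head a ∈ X → (tail a ∈ S ↔ head a ∈ S)) → S = X

/-- `K` is a weak component of the subdigraph induced by `W`. -/
structure IsComp (tail head : A → V) (W K : Set V) : Prop where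
  sub : K ⊆ W
  ne : K.Nonempty
  conn : Conn tail head K
  adj : ∀ a, tail a ∈ W → head a ∈ W → (tail a ∈ K ↔ head a ∈ K)

open Classical in
/-- The contraction of the complement of `U` to one vertex `none`. -/
noncomputable def con (U : Set V) (x : V) : Option V := if x ∈ U then some x else none

/-- The conjecture holds for the digraph obtained by contracting the complement of `U`. -/
def PairAt (tail head : A → V) (U : Set V) : Prop := HasPair (con U ∘ tail) (con U ∘ head)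

/-- `U` is locally good: the contraction of `V ∖ U` has finite escape number, or the conjecture
holds for it, or some finite set of vertices cuts `U` into locally good parts. -/
inductive Local (tail head : A → V) : Set V → Prop
  | escape (U : Set V) (k : ℕ) : Escape (con U ∘ tail) (con U ∘ head) k → Local tail head U
  | pair (U : Set V) : PairAt tail head U → Local tail head U
  | separate (U S : Set V) : S.Finite → (∀ K, IsComp tail head (U \ S) K → Local tail head K) →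
      Local tail head U

/-! ### Counting -/

theorem window {α : Type*} {C D W : Set α} (hW : W.Finite) (h1 : C \ D ⊆ W) (h2 : D \ C ⊆ W) :
    (D \ C).ncard + (C ∩ W).ncard = (C \ D).ncard + (D ∩ W).ncard := by
  have e1 : D ∩ W = (D \ C) ∪ (C ∩ D ∩ W) := by
    ext x
    simp only [Set.mem_inter_iff, Set.mem_union, Set.mem_sdiff]
    constructor
    · rintro ⟨a, b⟩
      by_cases hx : x ∈ C
      · exact Or.inr ⟨⟨hx, a⟩, b⟩
      · exact Or.inl ⟨a, hx⟩
    · rintro (h | h)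
      · exact ⟨h.1, h2 h⟩
      · exact ⟨h.1.2, h.2⟩
  have e2 : C ∩ W = (C \ D) ∪ (C ∩ D ∩ W) := by
    ext x
    simp only [Set.mem_inter_iff, Set.mem_union, Set.mem_sdiff]
    constructor
    · rintro ⟨a, b⟩
      by_cases hx : x ∈ D
      · exact Or.inr ⟨⟨a, hx⟩, b⟩
      · exact Or.inl ⟨a, hx⟩
    · rintro (h | h)
      · exact ⟨h.1, h1 h⟩
      · exact ⟨h.1.1, h.2⟩
  have f : (C ∩ D ∩ W).Finite := hW.subset Set.inter_subset_right
  have d1 : Disjoint (D \ C) (C ∩ D ∩ W) :=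
    Set.disjoint_left.2 fun x hx hy => hx.2 hy.1.1
  have d2 : Disjoint (C \ D) (C ∩ D ∩ W) :=
    Set.disjoint_left.2 fun x hx hy => hx.2 hy.1.2
  rw [e1, e2, Set.ncard_union_eq d1 (hW.subset h2) f, Set.ncard_union_eq d2 (hW.subset h1) f]
  omega

theorem near_refl (C : Set (Set A)) : Near C C := by
  simp [Near]

theorem near_trans {C D E : Set (Set A)} (h1 : Near C D) (h2 : Near D E) : Near C E := by
  refine ⟨(h1.1.union h2.1).subset ?_, (h1.2.union h2.2).subset ?_⟩
  · rintro x ⟨a, b⟩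
    by_cases hx : x ∈ D
    · exact Or.inr ⟨hx, b⟩
    · exact Or.inl ⟨a, hx⟩
  · rintro x ⟨a, b⟩
    by_cases hx : x ∈ D
    · exact Or.inl ⟨hx, b⟩
    · exact Or.inr ⟨a, hx⟩

theorem gain_add {C D E : Set (Set A)} (h1 : Near C D) (h2 : Near D E) :
    (E \ C).ncard + (C \ D).ncard + (D \ E).ncard =
      (C \ E).ncard + (D \ C).ncard + (E \ D).ncard := by
  have h3 := near_trans h1 h2
  let W := (C \ D) ∪ (D \ C) ∪ ((D \ E) ∪ (E \ D)) ∪ ((C \ E) ∪ (E \ C))
  have hW : W.Finite := ((h1.1.union h1.2).union (h2.1.union h2.2)).union (h3.1.union h3.2)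
  have w1 := window (C := C) (D := D) hW (fun x hx => Or.inl (Or.inl (Or.inl hx)))
    (fun x hx => Or.inl (Or.inl (Or.inr hx)))
  have w2 := window (C := D) (D := E) hW (fun x hx => Or.inl (Or.inr (Or.inl hx)))
    (fun x hx => Or.inl (Or.inr (Or.inr hx)))
  have w3 := window (C := C) (D := E) hW (fun x hx => Or.inr (Or.inl hx))
    (fun x hx => Or.inr (Or.inr hx))
  omega

/-- finitely many members of a disjoint family meet a finite set -/
theorem meet_finite {C : Set (Set A)} (hd : ∀ S ∈ C, ∀ T ∈ C, (S ∩ T).Nonempty → S = T)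
    {U : Set A} (hU : U.Finite) :
    {R | R ∈ C ∧ (R ∩ U).Nonempty}.Finite ∧ {R | R ∈ C ∧ (R ∩ U).Nonempty}.ncard ≤ U.ncard := by
  have hex : ∀ R : {R | R ∈ C ∧ (R ∩ U).Nonempty}, ∃ a : U, a.1 ∈ R.1 := by
    rintro ⟨R, h1, a, h2, h3⟩
    exact ⟨⟨a, h3⟩, h2⟩
  choose f hf using hex
  have hinj : Function.Injective f := by
    intro R T hRT
    apply Subtype.ext
    exact hd _ R.2.1 _ T.2.1 ⟨(f R).1, hf R, by rw [hRT]; exact hf T⟩
  have : Finite U := hU.to_subtype
  have hfin : Finite {R | R ∈ C ∧ (R ∩ U).Nonempty} := Finite.of_injective f hinj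
  refine ⟨Set.toFinite _, ?_⟩
  rw [← Nat.card_coe_set_eq, ← Nat.card_coe_set_eq]
  exact Nat.card_le_card_of_injective f hinj

variable {tail head : A → V}

theorem load_facts {m : ℕ} {X : Fin m → Set V} {E : Finset A}
    (h : ∀ a, load tail head X a ≤ ind E a) :
    (∀ i, cut tail head (X i) ⊆ ↑E) ∧
      (∀ i j a, a ∈ cut tail head (X i) → a ∈ cut tail head (X j) → i = j) := by
  classical
  have key : ∀ a, (Finset.univ.filter (fun i => a ∈ cut tail head (X i))).card ≤ ind E a := by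
    intro a
    have := h a
    unfold load at this
    rw [Finset.sum_boole] at this
    simpa using this
  constructor
  · intro i a ha
    by_contra hcon
    have h1 := key a
    have h2 : ind E a = 0 := by
      have : a ∉ E := hcon
      simp [ind, this]
    rw [h2, Nat.le_zero, Finset.card_eq_zero] at h1
    have : i ∈ Finset.univ.filter (fun i => a ∈ cut tail head (X i)) := by simp [ha]
    rw [h1] at this
    simp at this
  · intro i j a hi hj
    have h1 := key a
    have h2 : ind E a ≤ 1 := by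
      unfold ind; split_ifs <;> omega
    exact Finset.card_le_one.1 (h1.trans h2) i (by simp [hi]) j (by simp [hj])

/-- the partial selection, by the finite theorem -/
theorem partial_selection {C : Set (Set A)} (hC : StronglyMaximal tail head C)
    (T : Finset {S : Set A // FDicut tail head S}) :
    ∃ g : (S : {S : Set A // FDicut tail head S}) → {a // a ∈ S.1},
      ∀ S ∈ T, ∃ R : {S : Set A // FDicut tail head S}, R.1 ∈ C ∧ (g R).1 ∈ S.1 := by
  classical
  obtain ⟨hpack, hmax⟩ := hC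
  let U : Set A := ⋃ S ∈ T, S.1
  have hU : U.Finite := Set.Finite.biUnion T.finite_toSet (fun S _ => S.2.1)
  let C0 : Set (Set A) := {R | R ∈ C ∧ (R ∩ U).Nonempty}
  have hC0 : C0.Finite := (meet_finite hpack.disj hU).1
  have hE : (U ∪ ⋃₀ C0).Finite :=
    hU.union (Set.Finite.sUnion hC0 (fun R hR => (hpack.dicut R hR.1).1))
  obtain ⟨k, ⟨X, hX1, hX2⟩, F, hFE, hFk, hF⟩ := lucchesi_younger (tail := tail) (head := head)
    hE.toFinset
  obtain ⟨hX3, hX4⟩ := load_facts hX2
  have hE' : (↑hE.toFinset : Set A) = U ∪ ⋃₀ C0 := hE.coe_toFinset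
  rw [hE'] at hX3
  let D : Set (Set A) := Set.range (fun i => cut tail head (X i))
  have hDfin : D.Finite := Set.finite_range _
  have hDinj : Function.Injective (fun i => cut tail head (X i)) := by
    intro i j hij
    obtain ⟨a, ha⟩ := (hX1 i).2
    exact hX4 i j a ha (by
      have : cut tail head (X i) = cut tail head (X j) := hij
      rw [← this]; exact ha)
  have hDcard : D.ncard = k := by
    show (Set.range (fun i => cut tail head (X i))).ncard = k
    rw [← Set.image_univ, Set.ncard_image_of_injective _ hDinj, Set.ncard_univ]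
    simp
  -- members of `C` outside `C0` avoid the window
  have hout : ∀ R ∈ C, R ∉ C0 → ∀ a ∈ R, a ∉ U ∪ ⋃₀ C0 := by
    rintro R hR hR0 a ha (h | ⟨R', hR', h⟩)
    · exact hR0 ⟨hR, a, ha, h⟩
    · have := hpack.disj R hR R' hR'.1 ⟨a, ha, h⟩
      rw [this] at hR0
      exact hR0 hR'
  have hDd : ∀ i, FDicut tail head (cut tail head (X i)) := fun i =>
    ⟨hE.subset (hX3 i), (hX1 i).2, X i, (hX1 i).1, rfl⟩
  let C' : Set (Set A) := (C \ C0) ∪ D
  have hpack' : Packing tail head C' := by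
    constructor
    · rintro S (hS | ⟨i, rfl⟩)
      · exact hpack.dicut S hS.1
      · exact hDd i
    · rintro S (hS | ⟨i, rfl⟩) S' (hS' | ⟨j, rfl⟩) hne
      · exact hpack.disj S hS.1 S' hS'.1 hne
      · obtain ⟨a, h1, h2⟩ := hne
        exact absurd (hX3 j h2) (hout S hS.1 hS.2 a h1)
      · obtain ⟨a, h1, h2⟩ := hne
        exact absurd (hX3 i h1) (hout S' hS'.1 hS'.2 a h2)
      · obtain ⟨a, h1, h2⟩ := hne
        rw [hX4 i j a h1 h2]
  have hs1 : C \ C' ⊆ C0 ∪ D := by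
    rintro R ⟨h1, h2⟩
    by_contra hcon
    exact h2 (Or.inl ⟨h1, fun h => hcon (Or.inl h)⟩)
  have hs2 : C' \ C ⊆ C0 ∪ D := by
    rintro R ⟨h1 | h1, h2⟩
    · exact absurd h1.1 h2
    · exact Or.inr h1
  have hWfin : (C0 ∪ D).Finite := hC0.union hDfin
  have hw := window hWfin hs1 hs2
  have e1 : C ∩ (C0 ∪ D) = C0 := by
    apply subset_antisymm
    · rintro R ⟨h1, h2 | ⟨i, rfl⟩⟩
      · exact h2
      · by_contra hcon
        obtain ⟨a, ha⟩ := (hX1 i).2
        exact hout _ h1 hcon a ha (hX3 i ha)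
    · intro R hR
      exact ⟨hR.1, Or.inl hR⟩
  have e2 : C' ∩ (C0 ∪ D) = D := by
    apply subset_antisymm
    · rintro R ⟨h1 | h1, h2⟩
      · rcases h2 with h2 | h2
        · exact absurd h2 h1.2
        · exact h2
      · exact h1
    · intro R hR
      exact ⟨Or.inr hR, Or.inr hR⟩
  rw [e1, e2, hDcard] at hw
  have hm := hmax C' hpack' ⟨hWfin.subset hs1, hWfin.subset hs2⟩
  have hk : k ≤ C0.ncard := by omega
  -- the selection
  have hex : ∀ R : C0, ∃ a : F, a.1 ∈ R.1 := by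
    rintro ⟨R, hR⟩
    obtain ⟨-, hne, Y, hY1, hY2⟩ := hpack.dicut R hR.1
    obtain ⟨a, ha1, ha2⟩ := hF Y ⟨hY1, by rw [hY2] at hne; exact hne⟩ (by
      rw [hE']
      intro b hb
      right
      refine ⟨R, hR, ?_⟩
      rw [hY2]
      exact hb)
    refine ⟨⟨a, ha1⟩, ?_⟩
    show a ∈ R
    rw [hY2]
    exact ha2
  choose f hf using hex
  have hinj : Function.Injective f := by
    intro R S hRS
    apply Subtype.ext
    exact hpack.disj _ R.2.1 _ S.2.1 ⟨(f R).1, hf R, by rw [hRS]; exact hf S⟩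
  have hbij : Function.Bijective f := by
    apply hinj.bijective_of_nat_card_le
    rw [Nat.card_coe_set_eq, Nat.card_eq_fintype_card, Fintype.card_coe, hFk]
    exact hk
  refine ⟨fun R => if h : R.1 ∈ C0 then ⟨(f ⟨R.1, h⟩).1, hf ⟨R.1, h⟩⟩ else
    ⟨R.2.2.1.some, R.2.2.1.some_mem⟩, ?_⟩
  intro S hS
  obtain ⟨hSf, hSne, Y, hY1, hY2⟩ := S.2
  obtain ⟨a, ha1, ha2⟩ := hF Y ⟨hY1, by rw [hY2] at hSne; exact hSne⟩ (by
    rw [hE']
    intro b hb
    left
    simp only [U, Set.mem_iUnion]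
    refine ⟨S, hS, ?_⟩
    rw [hY2]
    exact hb)
  obtain ⟨R, hR⟩ := hbij.2 ⟨a, ha1⟩
  refine ⟨⟨R.1, hpack.dicut _ R.2.1⟩, R.2.1, ?_⟩
  have hmem : R.1 ∈ C0 := R.2
  simp only [hmem, dif_pos]
  have : (f ⟨R.1, hmem⟩).1 = a := by
    have : f ⟨R.1, hmem⟩ = f R := rfl
    rw [this, hR]
  rw [this, hY2]
  exact ha2

/-- **A strongly maximal packing extends to a covering pair.** -/
theorem pair_of_stronglyMaximal {C : Set (Set A)} (hC : StronglyMaximal tail head C) :
    ∃ F, Pair tail head C F := by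
  classical
  have hpack := hC.1
  choose g hg using partial_selection hC
  have : ∀ S : {S : Set A // FDicut tail head S}, Finite {a // a ∈ S.1} := fun S =>
    S.2.1.to_subtype
  obtain ⟨χ, hχ⟩ := Finset.rado_selection (β := fun S : {S : Set A // FDicut tail head S} =>
    {a // a ∈ S.1}) g
  refine ⟨{a | ∃ R : {S : Set A // FDicut tail head S}, R.1 ∈ C ∧ a = (χ R).1}, hpack, ?_, ?_, ?_⟩
  · rintro a ⟨R, hR, rfl⟩
    exact ⟨R.1, hR, (χ R).2⟩
  · intro S hS
    refine ⟨(χ ⟨S, hpack.dicut S hS⟩).1, ?_⟩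
    apply subset_antisymm
    · rintro a ⟨ha, R, hR, rfl⟩
      have : R.1 = S := hpack.disj _ hR _ hS ⟨_, (χ R).2, ha⟩
      have e : R = ⟨S, hpack.dicut S hS⟩ := Subtype.ext this
      rw [e]
      rfl
    · rintro a rfl
      exact ⟨(χ ⟨S, hpack.dicut S hS⟩).2, _, hS, rfl⟩
  · intro S hS
    have hfin : {R | R ∈ C ∧ (R ∩ S).Nonempty}.Finite := (meet_finite hpack.disj hS.1).1
    let s : Finset {S : Set A // FDicut tail head S} :=
      insert ⟨S, hS⟩ (hfin.toFinset.subtype (fun S => FDicut tail head S))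
    obtain ⟨t, ht, hχt⟩ := hχ s
    obtain ⟨R, hR, hRS⟩ := hg t ⟨S, hS⟩ (ht (Finset.mem_insert_self _ _))
    have hRs : R ∈ s := by
      apply Finset.mem_insert_of_mem
      rw [Finset.mem_subtype, Set.Finite.mem_toFinset]
      exact ⟨hR, _, (g t R).2, hRS⟩
    refine ⟨(χ R).1, ?_, R, hR, rfl⟩
    rw [hχt R hRs]
    exact hRS

/-- a packing with bounded gain is near to a strongly maximal one -/
theorem exists_stronglyMaximal {C : Set (Set A)} (hC : Packing tail head C) (N : ℕ)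
    (hN : ∀ D, Packing tail head D → Near C D → (D \ C).ncard ≤ (C \ D).ncard + N) :
    ∃ D, StronglyMaximal tail head D ∧ Near C D := by
  classical
  let P : ℕ → Prop := fun n => ∃ D, Packing tail head D ∧ Near C D ∧
    (C \ D).ncard + n ≤ (D \ C).ncard
  have hP0 : P 0 := ⟨C, hC, near_refl C, le_of_eq rfl⟩
  obtain ⟨D, hD, hCD, hn⟩ := Nat.findGreatest_spec (P := P) (Nat.zero_le N) hP0
  refine ⟨D, ⟨hD, ?_⟩, hCD⟩
  intro E hE hDE
  by_contra hcon
  push Not at hcon
  have hCE := near_trans hCD hDE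
  have hg := gain_add hCD hDE
  have hPn : P (Nat.findGreatest P N + 1) := ⟨E, hE, hCE, by omega⟩
  have hb : Nat.findGreatest P N + 1 ≤ N := by
    have := hN E hE hCE
    omega
  have := Nat.le_findGreatest hb hPn
  omega

/-- the gain is bounded by the number of extra edges -/
theorem gain_le {C : Set (Set A)} {F P : Set A} (hF : F ⊆ ⋃₀ C)
    (hF1 : ∀ S ∈ C, ∀ a ∈ S ∩ F, ∀ b ∈ S ∩ F, a = b) (hP : P.Finite)
    (hit : ∀ S, FDicut tail head S → (S ∩ (F ∪ P)).Nonempty)
    {D : Set (Set A)} (hD : Packing tail head D) (hCD : Near C D) :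
    (D \ C).ncard ≤ (C \ D).ncard + P.ncard := by
  classical
  have hmf := meet_finite hD.disj hP
  have hsub : D \ C ⊆ {R | R ∈ D ∧ (R ∩ P).Nonempty} ∪ {R | R ∈ D \ C ∧ ¬ (R ∩ P).Nonempty} := by
    intro R hR
    by_cases h : (R ∩ P).Nonempty
    · exact Or.inl ⟨hR.1, h⟩
    · exact Or.inr ⟨hR, h⟩
  have hfin2 : {R | R ∈ D \ C ∧ ¬ (R ∩ P).Nonempty}.Finite := hCD.2.subset fun R hR => hR.1
  have h1 := Set.ncard_le_ncard hsub (hmf.1.union hfin2)
  have h2 := Set.ncard_union_le {R | R ∈ D ∧ (R ∩ P).Nonempty} {R | R ∈ D \ C ∧ ¬ (R ∩ P).Nonempty}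
  have h3 : {R | R ∈ D \ C ∧ ¬ (R ∩ P).Nonempty}.ncard ≤ (C \ D).ncard := by
    have hex : ∀ T : {R | R ∈ D \ C ∧ ¬ (R ∩ P).Nonempty}, ∃ p : A × (C \ D : Set (Set A)),
        p.1 ∈ T.1 ∧ p.1 ∈ F ∧ p.1 ∈ p.2.1 := by
      rintro ⟨T, ⟨hT1, hT2⟩, hT3⟩
      obtain ⟨a, ha, ha' | ha'⟩ := hit T (hD.dicut T hT1)
      · obtain ⟨R, hR, haR⟩ := hF ha'
        refine ⟨⟨a, R, hR, fun hRD => ?_⟩, ha, ha', haR⟩
        have := hD.disj T hT1 R hRD ⟨a, ha, haR⟩
        exact hT2 (by rw [this]; exact hR)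
      · exact absurd ⟨a, ha, ha'⟩ hT3
    choose f hf using hex
    have hinj : Function.Injective (fun T => (f T).2) := by
      intro T T' hTT
      have hTT' : (f T).2 = (f T').2 := hTT
      have e : (f T).1 = (f T').1 := by
        apply hF1 (f T).2.1 (f T).2.2.1
        · exact ⟨(hf T).2.2, (hf T).2.1⟩
        · refine ⟨?_, (hf T').2.1⟩
          rw [hTT']
          exact (hf T').2.2
      apply Subtype.ext
      exact hD.disj _ T.2.1.1 _ T'.2.1.1 ⟨(f T).1, (hf T).1, by rw [e]; exact (hf T').1⟩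
    have : Finite (C \ D : Set (Set A)) := hCD.1.to_subtype
    rw [← Nat.card_coe_set_eq, ← Nat.card_coe_set_eq]
    exact Nat.card_le_card_of_injective _ hinj
  have h4 := hmf.2
  omega

/-- **Repair of finite errors.** -/
theorem repair {C : Set (Set A)} {F P : Set A} (hC : Packing tail head C) (hF : F ⊆ ⋃₀ C)
    (hF1 : ∀ S ∈ C, ∀ a ∈ S ∩ F, ∀ b ∈ S ∩ F, a = b) (hP : P.Finite)
    (hit : ∀ S, FDicut tail head S → (S ∩ (F ∪ P)).Nonempty) :
    ∃ (D : Set (Set A)) (G : Set A), Pair tail head D G ∧ Near C D := by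
  obtain ⟨D, hD, hCD⟩ := exists_stronglyMaximal hC P.ncard
    (fun D hD hCD => gain_le hF hF1 hP hit hD hCD)
  obtain ⟨G, hG⟩ := pair_of_stronglyMaximal hD
  exact ⟨D, G, hG, hCD⟩

theorem stronglyMaximal_of_pair {C : Set (Set A)} {F : Set A} (h : Pair tail head C F) :
    StronglyMaximal tail head C := by
  refine ⟨h.packing, fun D hD hCD => ?_⟩
  have := gain_le (P := ∅) h.sub (by
    intro S hS a ha b hb
    obtain ⟨c, hc⟩ := h.one S hS
    rw [hc] at ha hb
    rw [Set.mem_singleton_iff] at ha hb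
    rw [ha, hb]) Set.finite_empty (by
    intro S hS
    rw [Set.union_empty]
    exact h.meets S hS) hD hCD
  simpa using this

/-! ### Finite escape number -/

theorem exists_bond {S : Set A} (hS : FDicut tail head S) : ∃ T ⊆ S, Bond tail head T := by
  have hfin : {T | T ⊆ S ∧ FDicut tail head T}.Finite :=
    hS.1.finite_subsets.subset fun T hT => hT.1
  obtain ⟨m, hm⟩ := hfin.exists_minimal ⟨S, subset_rfl, hS⟩
  refine ⟨m, hm.prop.1, hm.prop.2, fun T hT hTd => ?_⟩
  exact subset_antisymm hT (hm.le_of_le ⟨hT.trans hm.prop.1, hTd⟩ hT)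

/-- the optimal pairs of the finite pieces -/
theorem finite_pair (E : Finset A) : ∃ (C : Set (Set A)) (F : Finset A),
    (∀ S ∈ C, Bond tail head S) ∧ (∀ S ∈ C, ∀ T ∈ C, (S ∩ T).Nonempty → S = T) ∧
    (∀ S ∈ C, ∀ a ∈ S, ∀ b ∈ S, a ∈ F → b ∈ F → a = b) ∧ (∀ a ∈ F, ∃ S ∈ C, a ∈ S) ∧
    (∀ S, FDicut tail head S → S ⊆ ↑E → ∃ a ∈ F, a ∈ S) := by
  classical
  obtain ⟨k, ⟨X, hX1, hX2⟩, F, hFE, hFk, hF⟩ := lucchesi_younger (tail := tail) (head := head) E
  obtain ⟨hX3, hX4⟩ := load_facts hX2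
  have hd : ∀ i, FDicut tail head (cut tail head (X i)) := fun i =>
    ⟨E.finite_toSet.subset (hX3 i), (hX1 i).2, X i, (hX1 i).1, rfl⟩
  choose B hB1 hB2 using fun i => exists_bond (hd i)
  have hhit : ∀ S, FDicut tail head S → S ⊆ ↑E → ∃ a ∈ F, a ∈ S := by
    rintro S ⟨h1, h2, Y, h3, h4⟩ h5
    obtain ⟨a, ha1, ha2⟩ := hF Y ⟨h3, by rw [h4] at h2; exact h2⟩ (by rw [h4] at h5; exact h5)
    exact ⟨a, ha1, by rw [h4]; exact ha2⟩
  have hBd : ∀ i j a, a ∈ B i → a ∈ B j → i = j := fun i j a h1 h2 =>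
    hX4 i j a (hB1 i h1) (hB1 j h2)
  have hex : ∀ i, ∃ a : F, a.1 ∈ B i := by
    intro i
    obtain ⟨a, ha1, ha2⟩ := hhit (B i) (hB2 i).1 ((hB1 i).trans (hX3 i))
    exact ⟨⟨a, ha1⟩, ha2⟩
  choose f hf using hex
  have hinj : Function.Injective f := by
    intro i j hij
    exact hBd i j _ (hf i) (by rw [hij]; exact hf j)
  have hbij : Function.Bijective f := by
    apply hinj.bijective_of_nat_card_le
    simp [hFk]
  refine ⟨Set.range B, F, ?_, ?_, ?_, ?_, hhit⟩
  · rintro S ⟨i, rfl⟩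
    exact hB2 i
  · rintro S ⟨i, rfl⟩ T ⟨j, rfl⟩ ⟨a, h1, h2⟩
    rw [hBd i j a h1 h2]
  · rintro S ⟨i, rfl⟩ a ha b hb haF hbF
    obtain ⟨j, hj⟩ := hbij.2 ⟨a, haF⟩
    obtain ⟨l, hl⟩ := hbij.2 ⟨b, hbF⟩
    have e1 : j = i := hBd j i a (by have := hf j; rw [hj] at this; exact this) ha
    have e2 : l = i := hBd l i b (by have := hf l; rw [hl] at this; exact this) hb
    rw [e1] at hj
    rw [e2] at hl
    have := hj.symm.trans hl
    exact congrArg Subtype.val this
  · intro a ha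
    obtain ⟨i, hi⟩ := hbij.2 ⟨a, ha⟩
    exact ⟨B i, ⟨i, rfl⟩, by have := hf i; rw [hi] at this; exact this⟩

theorem pigeon {α β : Type*} (𝒰 : Ultrafilter α) {I : Set β} (hI : I.Finite) {p : β → α → Prop}
    (h : ∀ᶠ x in (𝒰 : Filter α), ∃ i ∈ I, p i x) :
    ∃ i ∈ I, ∀ᶠ x in (𝒰 : Filter α), p i x := by
  have h' : (⋃ i ∈ I, {x | p i x}) ∈ 𝒰 := by
    apply Filter.mem_of_superset h
    rintro x ⟨i, hi, hp⟩
    exact Set.mem_biUnion hi hp
  exact (Ultrafilter.finite_biUnion_mem_iff hI).1 h'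

/-- **Finite escape number.** -/
theorem hasPair_of_escape {k : ℕ} (hk : Escape tail head k) : HasPair tail head := by
  classical
  choose C F h1 h2 h3 h4 h5 using fun E : Finset A => finite_pair (tail := tail) (head := head) E
  let 𝒰 : Ultrafilter (Finset A) := Ultrafilter.of Filter.atTop
  have hU : (𝒰 : Filter (Finset A)) ≤ Filter.atTop := Ultrafilter.of_le _
  have hge : ∀ E₀ : Finset A, ∀ᶠ E in (𝒰 : Filter (Finset A)), E₀ ≤ E := fun E₀ =>
    hU (Filter.eventually_ge_atTop E₀)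
  let Ci : Set (Set A) := {S | ∀ᶠ E in (𝒰 : Filter (Finset A)), S ∈ C E}
  let Fi : Set A := {a | ∀ᶠ E in (𝒰 : Filter (Finset A)), a ∈ F E}
  let P : Set A := {a | a ∈ Fi ∧ ∀ S ∈ Ci, a ∉ S}
  have hpack : Packing tail head Ci := by
    constructor
    · intro S hS
      obtain ⟨E, hE⟩ := hS.exists
      exact (h1 E S hE).1
    · intro S hS T hT hne
      obtain ⟨E, hE1, hE2⟩ := (hS.and hT).exists
      exact h2 E S hE1 T hE2 hne
  have hone : ∀ S ∈ Ci, ∀ a ∈ S, ∀ b ∈ S, a ∈ Fi → b ∈ Fi → a = b := by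
    intro S hS a ha b hb haF hbF
    obtain ⟨E, hE1, hE2, hE3⟩ := (hS.and (haF.and hbF)).exists
    exact h3 E S hE1 a ha b hb hE2 hE3
  have hhit : ∀ S, FDicut tail head S → ∃ a ∈ S, a ∈ Fi := by
    intro S hS
    have hev : ∀ᶠ E in (𝒰 : Filter (Finset A)), ∃ a ∈ S, a ∈ F E := by
      filter_upwards [hge hS.1.toFinset] with E hE
      obtain ⟨a, ha1, ha2⟩ := h5 E S hS (by
        intro b hb
        exact hE (hS.1.mem_toFinset.2 hb))
      exact ⟨a, ha2, ha1⟩
    exact pigeon 𝒰 hS.1 hev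
  have hPfin : P.Finite := by
    by_contra hinf
    have hinf : P.Infinite := hinf
    obtain ⟨Q, hQP, hQ⟩ := hinf.exists_subset_card_eq (k + 1)
    obtain ⟨E₁, hE₁, hesc⟩ := hk (↑Q) Q.finite_toSet
    let q : Fin (k + 1) ≃ Q := (Q.equivFinOfCardEq hQ).symm
    have hqP : ∀ i, (q i).1 ∈ P := fun i => hQP (q i).2
    have hev : ∀ᶠ E in (𝒰 : Filter (Finset A)), ∃ i ∈ (Set.univ : Set (Fin (k + 1))),
        ∃ S ∈ {S | S ⊆ E₁}, S ∈ C E ∧ (q i).1 ∈ S := by
      have hall : ∀ᶠ E in (𝒰 : Filter (Finset A)), ∀ i, (q i).1 ∈ F E :=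
        Filter.eventually_all.2 fun i => (hqP i).1
      filter_upwards [hall] with E hE
      choose B hB1 hB2 using fun i => h4 E (q i).1 (hE i)
      obtain ⟨i, hi⟩ := hesc B (fun i => ⟨h1 E _ (hB1 i), (q i).1, hB2 i, (q i).2⟩) (by
        intro i j hij
        rw [Set.disjoint_left]
        intro a ha hb
        have e := h2 E _ (hB1 i) _ (hB1 j) ⟨a, ha, hb⟩
        have e2 := h3 E _ (hB1 i) (q i).1 (hB2 i) (q j).1 (by rw [e]; exact hB2 j) (hE i) (hE j)
        exact hij (q.injective (Subtype.ext e2)))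
      exact ⟨i, trivial, B i, hi, hB1 i, hB2 i⟩
    obtain ⟨i, -, hi⟩ := pigeon 𝒰 Set.finite_univ hev
    obtain ⟨S, -, hS⟩ := pigeon 𝒰 hE₁.finite_subsets hi
    have hSC : S ∈ Ci := hS.mono fun E hE => hE.1
    obtain ⟨E, -, hE⟩ := hS.exists
    exact (hqP i).2 S hSC hE
  obtain ⟨D, G, hDG, -⟩ := repair (F := Fi \ P) (P := P) hpack (by
    rintro a ⟨ha, haP⟩
    by_contra hcon
    apply haP
    refine ⟨ha, fun S hS haS => hcon ⟨S, hS, haS⟩⟩) (by
    rintro S hS a ⟨ha, haF⟩ b ⟨hb, hbF⟩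
    exact hone S hS a ha b hb haF.1 hbF.1) hPfin (by
    intro S hS
    obtain ⟨a, ha1, ha2⟩ := hhit S hS
    refine ⟨a, ha1, ?_⟩
    by_cases h : a ∈ P
    · exact Or.inr h
    · exact Or.inl ⟨ha2, h⟩)
  exact ⟨D, G, hDG⟩

/-! ### Gluing over finite separators -/

theorem exists_isComp (W : Set V) {v : V} (hv : v ∈ W) :
    ∃ K, IsComp tail head W K ∧ v ∈ K := by
  classical
  let fam : Set (Set V) := {S | S ⊆ W ∧ v ∈ S ∧
    ∀ a, tail a ∈ W → head a ∈ W → (tail a ∈ S ↔ head a ∈ S)}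
  let Z : Set V := ⋂₀ fam
  have hWf : W ∈ fam := ⟨subset_rfl, hv, fun a h1 h2 => ⟨fun _ => h2, fun _ => h1⟩⟩
  have hZW : Z ⊆ W := Set.sInter_subset_of_mem hWf
  have hvZ : v ∈ Z := Set.mem_sInter.2 fun S hS => hS.2.1
  have hadj : ∀ a, tail a ∈ W → head a ∈ W → (tail a ∈ Z ↔ head a ∈ Z) := by
    intro a h1 h2
    constructor
    · intro h
      exact Set.mem_sInter.2 fun S hS => (hS.2.2 a h1 h2).1 (Set.mem_sInter.1 h S hS)
    · intro h
      exact Set.mem_sInter.2 fun S hS => (hS.2.2 a h1 h2).2 (Set.mem_sInter.1 h S hS)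
  refine ⟨Z, ⟨hZW, ⟨v, hvZ⟩, ?_, hadj⟩, hvZ⟩
  intro T hT hTne hTadj
  have hTW : ∀ a, tail a ∈ W → head a ∈ W → (tail a ∈ T ↔ head a ∈ T) := by
    intro a h1 h2
    constructor
    · intro h
      exact (hTadj a (hT h) ((hadj a h1 h2).1 (hT h))).1 h
    · intro h
      exact (hTadj a ((hadj a h1 h2).2 (hT h)) (hT h)).2 h
  by_cases hvT : v ∈ T
  · apply subset_antisymm hT
    exact Set.sInter_subset_of_mem (show T ∈ fam from ⟨hT.trans hZW, hvT, hTW⟩)
  · exfalso
    have hmem : Z \ T ∈ fam := by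
      refine ⟨fun x hx => hZW hx.1, ⟨hvZ, hvT⟩, ?_⟩
      intro a h1 h2
      constructor
      · rintro ⟨h3, h4⟩
        exact ⟨(hadj a h1 h2).1 h3, fun h => h4 ((hTW a h1 h2).2 h)⟩
      · rintro ⟨h3, h4⟩
        exact ⟨(hadj a h1 h2).2 h3, fun h => h4 ((hTW a h1 h2).1 h)⟩
    obtain ⟨t, ht⟩ := hTne
    exact (Set.sInter_subset_of_mem hmem (hT ht)).2 ht

theorem isComp_eq {W K K' : Set V} (h : IsComp tail head W K) (h' : IsComp tail head W K')
    (hne : (K ∩ K').Nonempty) : K = K' := by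
  have e1 : K ∩ K' = K := by
    apply h.conn _ Set.inter_subset_left hne
    intro a h1 h2
    have := h'.adj a (h.sub h1) (h.sub h2)
    exact ⟨fun h => ⟨h2, this.1 h.2⟩, fun h => ⟨h1, this.2 h.2⟩⟩
  have e2 : K ∩ K' = K' := by
    apply h'.conn _ Set.inter_subset_right hne
    intro a h1 h2
    have := h.adj a (h'.sub h1) (h'.sub h2)
    exact ⟨fun h => ⟨this.1 h.1, h2⟩, fun h => ⟨this.2 h.1, h1⟩⟩
  rw [← e1, e2]

/-- finitely many edges separate the sets separating two given vertices -/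
theorem exists_path (hconn : Conn tail head Set.univ) (x y : V) : ∃ P : Set A, P.Finite ∧
    ∀ X : Set V, ¬ (x ∈ X ↔ y ∈ X) → ∃ a ∈ P, ¬ (tail a ∈ X ↔ head a ∈ X) := by
  let R : Set V := {y | ∃ P : Set A, P.Finite ∧
      ∀ X : Set V, ¬ (x ∈ X ↔ y ∈ X) → ∃ a ∈ P, ¬ (tail a ∈ X ↔ head a ∈ X)}
  have hxR : x ∈ R := ⟨∅, Set.finite_empty, fun X h => absurd Iff.rfl h⟩
  have : R = Set.univ := by
    apply hconn R (Set.subset_univ _) ⟨x, hxR⟩
    intro a _ _
    constructor
    · rintro ⟨P, hP, h⟩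
      refine ⟨insert a P, hP.insert a, fun X hX => ?_⟩
      by_cases hcase : (x ∈ X ↔ tail a ∈ X)
      · refine ⟨a, Set.mem_insert _ _, fun hcon => hX (hcase.trans hcon)⟩
      · obtain ⟨b, hb1, hb2⟩ := h X hcase
        exact ⟨b, Set.mem_insert_of_mem _ hb1, hb2⟩
    · rintro ⟨P, hP, h⟩
      refine ⟨insert a P, hP.insert a, fun X hX => ?_⟩
      by_cases hcase : (x ∈ X ↔ head a ∈ X)
      · refine ⟨a, Set.mem_insert _ _, fun hcon => hX (hcase.trans hcon.symm)⟩
      · obtain ⟨b, hb1, hb2⟩ := h X hcase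
        exact ⟨b, Set.mem_insert_of_mem _ hb1, hb2⟩
  have hy : y ∈ (Set.univ : Set V) := trivial
  rw [← this] at hy
  exact hy

theorem con_of_mem {U : Set V} {x : V} (h : x ∈ U) : con U x = some x := by simp [con, h]

theorem con_of_notMem {U : Set V} {x : V} (h : x ∉ U) : con U x = none := by simp [con, h]

/-- the finite dicuts of the contraction -/
theorem fdicut_con {U : Set V} {S : Set A} :
    FDicut (con U ∘ tail) (con U ∘ head) S ↔ S.Finite ∧ S.Nonempty ∧ ∃ X : Set V,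
      (∀ a : A, head a ∈ X → tail a ∈ X) ∧ S = {a : A | tail a ∈ X ∧ head a ∉ X} ∧
        (Uᶜ ⊆ X ∨ Disjoint Uᶜ X) := by
  constructor
  · rintro ⟨h1, h2, X', h3, h4⟩
    refine ⟨h1, h2, {x | con U x ∈ X'}, h3, h4, ?_⟩
    by_cases hn : none ∈ X'
    · left
      intro x hx
      show con U x ∈ X'
      rw [con_of_notMem hx]
      exact hn
    · right
      rw [Set.disjoint_left]
      intro x hx hx'
      have : con U x ∈ X' := hx'
      rw [con_of_notMem hx] at this
      exact hn this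
  · rintro ⟨h1, h2, X, h3, h4, h5⟩
    have key : ∀ x, con U x ∈ {y | ∃ x ∈ X, con U x = y} ↔ x ∈ X := by
      intro x
      constructor
      · rintro ⟨x', hx', he⟩
        by_cases hx : x ∈ U
        · rw [con_of_mem hx] at he
          by_cases hx2 : x' ∈ U
          · rw [con_of_mem hx2] at he
            rw [← Option.some.inj he]
            exact hx'
          · rw [con_of_notMem hx2] at he
            simp at he
        · rw [con_of_notMem hx] at he
          by_cases hx2 : x' ∈ U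
          · rw [con_of_mem hx2] at he
            simp at he
          · rcases h5 with h5 | h5
            · exact h5 hx
            · exact absurd hx' (Set.disjoint_left.1 h5 hx2)
      · intro hx
        exact ⟨x, hx, rfl⟩
    refine ⟨h1, h2, {y | ∃ x ∈ X, con U x = y}, ?_, ?_⟩
    · intro a ha
      exact (key _).2 (h3 a ((key _).1 ha))
    · rw [h4]
      ext a
      simp only [Set.mem_ofPred_eq, Function.comp]
      constructor
      · rintro ⟨k1, k2⟩
        exact ⟨(key _).2 k1, fun hc => k2 ((key _).1 hc)⟩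
      · rintro ⟨k1, k2⟩
        exact ⟨(key _).1 k1, fun hc => k2 ((key _).2 hc)⟩

theorem end_mem {K : Set V} {S : Set A} (h : FDicut (con K ∘ tail) (con K ∘ head) S) {a : A}
    (ha : a ∈ S) : tail a ∈ K ∨ head a ∈ K := by
  obtain ⟨-, -, X, h1, h2, h3⟩ := fdicut_con.1 h
  by_contra hcon
  push Not at hcon
  rw [h2] at ha
  rcases h3 with h3 | h3
  · exact ha.2 (h3 hcon.2)
  · exact Set.disjoint_left.1 h3 hcon.1 ha.1

/-- a dicut of `D/(V∖U)` meets a fixed finite set or splits into dicuts at the components of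
`U ∖ S` -/
theorem dichotomy (hconn : Conn tail head Set.univ) (U S : Set V) (hS : S.Finite) :
    ∃ Q : Set A, Q.Finite ∧ ∀ T, FDicut (con U ∘ tail) (con U ∘ head) T →
      (T ∩ Q).Nonempty ∨ ∀ e ∈ T, ∃ K, IsComp tail head (U \ S) K ∧
        ∃ T' ⊆ T, e ∈ T' ∧ FDicut (con K ∘ tail) (con K ∘ head) T' := by
  classical
  let S' : Set V := S ∪ {z | ∃ h : (Uᶜ).Nonempty, z = h.some}
  have hS' : S'.Finite := by
    apply hS.union
    apply Set.Subsingleton.finite
    rintro z ⟨h1, h2⟩ w ⟨h3, h4⟩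
    rw [h2, h4]
  choose P hP1 hP2 using exists_path hconn
  let Q : Set A := ⋃ x ∈ S', ⋃ y ∈ S', P x y
  have hQ : Q.Finite := Set.Finite.biUnion hS' fun x _ => Set.Finite.biUnion hS' fun y _ => hP1 x y
  refine ⟨Q, hQ, ?_⟩
  intro T hT
  obtain ⟨h1, h2, X, h3, h4, h5⟩ := fdicut_con.1 hT
  by_cases hsplit : ∃ x ∈ S', ∃ y ∈ S', ¬ (x ∈ X ↔ y ∈ X)
  · left
    obtain ⟨x, hx, y, hy, hxy⟩ := hsplit
    obtain ⟨a, ha, hne⟩ := hP2 x y X hxy
    refine ⟨a, ?_, ?_⟩
    · rw [h4]
      by_cases hh : head a ∈ X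
      · exact absurd ⟨fun _ => hh, fun _ => h3 a hh⟩ hne
      · exact ⟨by_contra fun hc => hne ⟨fun h => absurd h hc, fun h => absurd h hh⟩, hh⟩
    · exact Set.mem_biUnion hx (Set.mem_biUnion hy ha)
  · right
    push Not at hsplit
    -- `X` does not split `S ∪ Uᶜ`
    have hns : (S ∪ Uᶜ ⊆ X) ∨ Disjoint (S ∪ Uᶜ) X := by
      by_cases hne : (Uᶜ).Nonempty
      · have hz : hne.some ∈ S' := Or.inr ⟨hne, rfl⟩
        rcases h5 with h5 | h5
        · left
          rintro x (hx | hx)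
          · exact (hsplit x (Or.inl hx) _ hz).2 (h5 hne.some_mem)
          · exact h5 hx
        · right
          rw [Set.disjoint_left]
          rintro x (hx | hx) hxX
          · exact Set.disjoint_left.1 h5 hne.some_mem ((hsplit x (Or.inl hx) _ hz).1 hxX)
          · exact Set.disjoint_left.1 h5 hx hxX
      · rw [Set.not_nonempty_iff_eq_empty] at hne
        rw [hne, Set.union_empty]
        by_cases hSX : ∃ x ∈ S, x ∈ X
        · left
          obtain ⟨x, hx, hxX⟩ := hSX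
          intro y hy
          exact (hsplit x (Or.inl hx) y (Or.inl hy)).1 hxX
        · right
          push Not at hSX
          exact Set.disjoint_left.2 hSX
    intro e he
    rw [h4] at he
    rcases hns with hns | hns
    · -- the head side
      have heW : head e ∈ U \ S :=
        ⟨by_contra fun hc => he.2 (hns (Or.inr hc)), fun hc => he.2 (hns (Or.inl hc))⟩
      obtain ⟨K, hK, heK⟩ := exists_isComp (tail := tail) (head := head) (U \ S) heW
      have hXc : ∀ x, x ∉ X → x ∈ U \ S := fun x hx =>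
        ⟨by_contra fun hc => hx (hns (Or.inr hc)), fun hc => hx (hns (Or.inl hc))⟩
      have hsubcut : {a : A | tail a ∈ X ∪ Kᶜ ∧ head a ∉ X ∪ Kᶜ} ⊆ T := by
        rintro a ⟨k1, k2⟩
        rw [h4]
        simp only [Set.mem_union, Set.mem_compl_iff, not_or, not_not] at k1 k2
        refine ⟨by_contra fun hc => ?_, k2.1⟩
        have t1 := hXc _ hc
        have t2 := (hK.adj a t1 (hXc _ k2.1)).2 k2.2
        rcases k1 with k1 | k1
        · exact hc k1
        · exact k1 t2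
      have hemem : e ∈ {a : A | tail a ∈ X ∪ Kᶜ ∧ head a ∉ X ∪ Kᶜ} := by
        refine ⟨Or.inl he.1, ?_⟩
        rintro (hc | hc)
        · exact he.2 hc
        · exact hc heK
      refine ⟨K, hK, _, hsubcut, hemem, fdicut_con.2 ⟨h1.subset hsubcut, ⟨e, hemem⟩, X ∪ Kᶜ, ?_,
        rfl, Or.inl Set.subset_union_right⟩⟩
      intro a ha
      by_contra hcon
      simp only [Set.mem_union, Set.mem_compl_iff, not_or, not_not] at hcon
      have t0 : head a ∉ X := fun hc => hcon.1 (h3 a hc)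
      have t1 := (hK.adj a (hXc _ hcon.1) (hXc _ t0)).1 hcon.2
      rcases ha with ha | ha
      · exact t0 ha
      · exact ha t1
    · -- the tail side
      have hXW : ∀ x, x ∈ X → x ∈ U \ S := fun x hx =>
        ⟨by_contra fun hc => Set.disjoint_left.1 hns (Or.inr hc) hx,
          fun hc => Set.disjoint_left.1 hns (Or.inl hc) hx⟩
      obtain ⟨K, hK, heK⟩ := exists_isComp (tail := tail) (head := head) (U \ S) (hXW _ he.1)
      have hsubcut : {a : A | tail a ∈ X ∩ K ∧ head a ∉ X ∩ K} ⊆ T := by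
        rintro a ⟨k1, k2⟩
        rw [h4]
        refine ⟨k1.1, fun hc => k2 ⟨hc, ?_⟩⟩
        exact (hK.adj a (hXW _ k1.1) (hXW _ hc)).1 k1.2
      refine ⟨K, hK, _, hsubcut, ⟨⟨he.1, heK⟩, fun hc => he.2 hc.1⟩,
        fdicut_con.2 ⟨h1.subset hsubcut, ⟨e, ⟨he.1, heK⟩, fun hc => he.2 hc.1⟩,
        X ∩ K, ?_, rfl, Or.inr ?_⟩⟩
      · rintro a ⟨k1, k2⟩
        have t1 := h3 a k1
        exact ⟨t1, (hK.adj a (hXW _ t1) (hXW _ k1)).2 k2⟩
      · rw [Set.disjoint_left]
        rintro x hx ⟨-, hxK⟩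
        exact hx hxK

theorem fdicut_mono {U K : Set V} (hKU : K ⊆ U) {T : Set A}
    (h : FDicut (con K ∘ tail) (con K ∘ head) T) : FDicut (con U ∘ tail) (con U ∘ head) T := by
  obtain ⟨h1, h2, X, h3, h4, h5⟩ := fdicut_con.1 h
  have hUK : Uᶜ ⊆ Kᶜ := fun x hx hxK => hx (hKU hxK)
  refine fdicut_con.2 ⟨h1, h2, X, h3, h4, ?_⟩
  rcases h5 with h5 | h5
  · exact Or.inl (hUK.trans h5)
  · exact Or.inr (h5.mono_left hUK)

theorem comp_unique {W K K' : Set V} (hK : IsComp tail head W K) (hK' : IsComp tail head W K')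
    {T T' : Set A} (hT : FDicut (con K ∘ tail) (con K ∘ head) T)
    (hT' : FDicut (con K' ∘ tail) (con K' ∘ head) T') (hne : (T ∩ T').Nonempty) : K = K' := by
  obtain ⟨a, ha, ha'⟩ := hne
  have e1 := end_mem hT ha
  have e2 := end_mem hT' ha'
  apply isComp_eq hK hK'
  rcases e1 with e1 | e1 <;> rcases e2 with e2 | e2
  · exact ⟨_, e1, e2⟩
  · exact ⟨_, (hK.adj a (hK.sub e1) (hK'.sub e2)).1 e1, e2⟩
  · exact ⟨_, e1, (hK'.adj a (hK'.sub e2) (hK.sub e1)).1 e2⟩
  · exact ⟨_, e1, e2⟩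

/-- **Gluing over a finite separator.** -/
theorem glue (hconn : Conn tail head Set.univ) {U S : Set V} (hS : S.Finite)
    (h : ∀ K, IsComp tail head (U \ S) K → PairAt tail head K) : PairAt tail head U := by
  classical
  choose C F hCF using h
  let C' : Set (Set A) := {T | ∃ K, ∃ hK : IsComp tail head (U \ S) K, T ∈ C K hK}
  let F' : Set A := {a | ∃ K, ∃ hK : IsComp tail head (U \ S) K, a ∈ F K hK}
  have hcomp : ∀ K (hK : IsComp tail head (U \ S) K) K' (hK' : IsComp tail head (U \ S) K')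
      (T T' : Set A), T ∈ C K hK → T' ∈ C K' hK' → (T ∩ T').Nonempty → K = K' :=
    fun K hK K' hK' T T' hT hT' hne => comp_unique hK hK' ((hCF K hK).packing.dicut T hT)
      ((hCF K' hK').packing.dicut T' hT') hne
  have hpack : Packing (con U ∘ tail) (con U ∘ head) C' := by
    constructor
    · rintro T ⟨K, hK, hT⟩
      exact fdicut_mono (fun x hx => (hK.sub hx).1) ((hCF K hK).packing.dicut T hT)
    · rintro T ⟨K, hK, hT⟩ T' ⟨K', hK', hT'⟩ hne
      have e := hcomp K hK K' hK' T T' hT hT' hne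
      subst e
      exact (hCF K hK).packing.disj T hT T' hT' hne
  obtain ⟨Q, hQ, hdich⟩ := dichotomy hconn U S hS
  obtain ⟨D, G, hDG, -⟩ := repair (F := F') (P := Q) hpack (by
      rintro a ⟨K, hK, ha⟩
      obtain ⟨T, hT, haT⟩ := (hCF K hK).sub ha
      exact ⟨T, ⟨K, hK, hT⟩, haT⟩) (by
      rintro T ⟨K, hK, hT⟩ a ⟨haT, K1, hK1, ha⟩ b ⟨hbT, K2, hK2, hb⟩
      obtain ⟨T1, hT1, haT1⟩ := (hCF K1 hK1).sub ha
      obtain ⟨T2, hT2, hbT2⟩ := (hCF K2 hK2).sub hb
      have e1 := hcomp K hK K1 hK1 T T1 hT hT1 ⟨a, haT, haT1⟩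
      have e2 := hcomp K hK K2 hK2 T T2 hT hT2 ⟨b, hbT, hbT2⟩
      subst e1
      subst e2
      obtain ⟨c, hc⟩ := (hCF K hK).one T hT
      have f1 : a ∈ T ∩ F K hK := ⟨haT, ha⟩
      have f2 : b ∈ T ∩ F K hK := ⟨hbT, hb⟩
      rw [hc, Set.mem_singleton_iff] at f1 f2
      rw [f1, f2]) hQ (by
      intro T hT
      rcases hdich T hT with ⟨a, ha1, ha2⟩ | h
      · exact ⟨a, ha1, Or.inr ha2⟩
      · obtain ⟨e, he⟩ := hT.2.1
        obtain ⟨K, hK, T', hT', -, hT'd⟩ := h e he
        obtain ⟨a, ha1, ha2⟩ := (hCF K hK).meets _ hT'd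
        exact ⟨a, hT' ha1, Or.inl ⟨K, hK, ha2⟩⟩)
  exact ⟨D, G, hDG⟩

/-- the members of a covering pair can be taken to be dibonds -/
theorem bond_pair {C : Set (Set A)} {F : Set A} (h : Pair tail head C F) :
    ∃ C', Pair tail head C' F ∧ ∀ T ∈ C', Bond tail head T := by
  choose g hg1 hg2 using fun T : C => exists_bond (h.packing.dicut T.1 T.2)
  have hone : ∀ T : C, ∀ a ∈ T.1 ∩ F, a ∈ g T := by
    intro T a ha
    obtain ⟨b, hb1, hb2⟩ := h.meets _ (hg2 T).1
    obtain ⟨c, hc⟩ := h.one T.1 T.2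
    have f2 : b ∈ T.1 ∩ F := ⟨hg1 T hb1, hb2⟩
    rw [hc, Set.mem_singleton_iff] at ha f2
    rw [ha, ← f2]
    exact hb1
  refine ⟨Set.range g, ⟨⟨?_, ?_⟩, ?_, ?_, h.meets⟩, ?_⟩
  · rintro T ⟨R, rfl⟩
    exact (hg2 R).1
  · rintro T ⟨R, rfl⟩ T' ⟨R', rfl⟩ ⟨a, ha, ha'⟩
    have := h.packing.disj _ R.2 _ R'.2 ⟨a, hg1 R ha, hg1 R' ha'⟩
    rw [Subtype.ext this]
  · intro a ha
    obtain ⟨T, hT, haT⟩ := h.sub ha
    exact ⟨g ⟨T, hT⟩, ⟨_, rfl⟩, hone ⟨T, hT⟩ a ⟨haT, ha⟩⟩
  · rintro T ⟨R, rfl⟩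
    obtain ⟨c, hc⟩ := h.one R.1 R.2
    refine ⟨c, ?_⟩
    have hcm : c ∈ R.1 ∩ F := by rw [hc]; rfl
    apply subset_antisymm
    · rintro a ⟨ha1, ha2⟩
      have : a ∈ R.1 ∩ F := ⟨hg1 R ha1, ha2⟩
      rwa [hc] at this
    · rintro a rfl
      exact ⟨hone R _ hcm, hcm.2⟩
  · rintro T ⟨R, rfl⟩
    exact hg2 R

/-- **Restriction to a component of a finite separator.** -/
theorem unglue (hconn : Conn tail head Set.univ) {U S : Set V} (hS : S.Finite)
    (h : PairAt tail head U) {K : Set V} (hK : IsComp tail head (U \ S) K) :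
    PairAt tail head K := by
  classical
  obtain ⟨C0, F, hp0⟩ := h
  obtain ⟨C, hp, hbond⟩ := bond_pair hp0
  obtain ⟨Q, hQ, hdich⟩ := dichotomy hconn U S hS
  let C2 : Set (Set A) := {T | T ∈ C ∧ FDicut (con K ∘ tail) (con K ∘ head) T}
  let F2 : Set A := F ∩ ⋃₀ C2
  let P : Set A := ⋃₀ {T | T ∈ C ∧ (T ∩ Q).Nonempty}
  have hP : P.Finite := Set.Finite.sUnion (meet_finite hp.packing.disj hQ).1
    (fun T hT => (hp.packing.dicut T hT.1).1)
  obtain ⟨D, G, hDG, -⟩ := repair (tail := con K ∘ tail) (head := con K ∘ head) (C := C2)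
    (F := F2) (P := P) ⟨fun T hT => hT.2, fun T hT T' hT' => hp.packing.disj T hT.1 T' hT'.1⟩
    Set.inter_subset_right (by
      rintro T hT a ⟨ha, ha2⟩ b ⟨hb, hb2⟩
      obtain ⟨c, hc⟩ := hp.one T hT.1
      have f1 : a ∈ T ∩ F := ⟨ha, ha2.1⟩
      have f2 : b ∈ T ∩ F := ⟨hb, hb2.1⟩
      rw [hc, Set.mem_singleton_iff] at f1 f2
      rw [f1, f2]) hP (by
      intro T hT
      obtain ⟨a, ha1, ha2⟩ := hp.meets T (fdicut_mono (fun x hx => (hK.sub hx).1) hT)
      refine ⟨a, ha1, ?_⟩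
      obtain ⟨R, hR, haR⟩ := hp.sub ha2
      rcases hdich R (hp.packing.dicut R hR) with hQR | hloc
      · exact Or.inr ⟨R, ⟨hR, hQR⟩, haR⟩
      · left
        obtain ⟨K', hK', R', hR', haR', hR'd⟩ := hloc a haR
        have e : R' = R := (hbond R hR).2 R' hR'
          (fdicut_mono (fun x hx => (hK'.sub hx).1) hR'd)
        rw [e] at hR'd
        have eK : K = K' := comp_unique hK hK' hT hR'd ⟨a, ha1, haR⟩
        rw [← eK] at hR'd
        exact ⟨ha2, R, ⟨hR, hR'd⟩, haR⟩)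
  exact ⟨D, G, hDG⟩

/-- **Identifying finitely many vertices.** -/
theorem identify (hconn : Conn tail head Set.univ) {S : Set V} (hS : S.Finite) :
    PairAt tail head Sᶜ ↔ HasPair tail head := by
  classical
  choose P hP1 hP2 using exists_path hconn
  let Q : Set A := ⋃ x ∈ S, ⋃ y ∈ S, P x y
  have hQ : Q.Finite := Set.Finite.biUnion hS fun x _ => Set.Finite.biUnion hS fun y _ => hP1 x y
  have hdich : ∀ T, FDicut tail head T →
      (T ∩ Q).Nonempty ∨ FDicut (con Sᶜ ∘ tail) (con Sᶜ ∘ head) T := by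
    rintro T ⟨h1, h2, X, h3, h4⟩
    by_cases hsplit : ∃ x ∈ S, ∃ y ∈ S, ¬ (x ∈ X ↔ y ∈ X)
    · left
      obtain ⟨x, hx, y, hy, hxy⟩ := hsplit
      obtain ⟨a, ha, hne⟩ := hP2 x y X hxy
      refine ⟨a, ?_, ?_⟩
      · rw [h4]
        by_cases hh : head a ∈ X
        · exact absurd ⟨fun _ => hh, fun _ => h3 a hh⟩ hne
        · exact ⟨by_contra fun hc => hne ⟨fun h => absurd h hc, fun h => absurd h hh⟩, hh⟩
      · exact Set.mem_biUnion hx (Set.mem_biUnion hy ha)
    · right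
      push Not at hsplit
      refine fdicut_con.2 ⟨h1, h2, X, h3, h4, ?_⟩
      rw [compl_compl]
      by_cases hSX : ∃ x ∈ S, x ∈ X
      · left
        obtain ⟨x, hx, hxX⟩ := hSX
        intro y hy
        exact (hsplit x hx y hy).1 hxX
      · right
        push Not at hSX
        exact Set.disjoint_left.2 hSX
  have hback : ∀ T, FDicut (con Sᶜ ∘ tail) (con Sᶜ ∘ head) T → FDicut tail head T := by
    intro T hT
    obtain ⟨h1, h2, X, h3, h4, -⟩ := fdicut_con.1 hT
    exact ⟨h1, h2, X, h3, h4⟩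
  constructor
  · rintro ⟨C, F, hp⟩
    obtain ⟨D, G, hDG, -⟩ := repair (tail := tail) (head := head) (C := C) (F := F) (P := Q)
      ⟨fun T hT => hback T (hp.packing.dicut T hT), hp.packing.disj⟩ hp.sub (by
        rintro T hT a ha b hb
        obtain ⟨c, hc⟩ := hp.one T hT
        rw [hc, Set.mem_singleton_iff] at ha hb
        rw [ha, hb]) hQ (by
        intro T hT
        rcases hdich T hT with ⟨a, ha1, ha2⟩ | h
        · exact ⟨a, ha1, Or.inr ha2⟩
        · obtain ⟨a, ha1, ha2⟩ := hp.meets T h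
          exact ⟨a, ha1, Or.inl ha2⟩)
    exact ⟨D, G, hDG⟩
  · rintro ⟨C, F, hp⟩
    let C2 : Set (Set A) := {T | T ∈ C ∧ FDicut (con Sᶜ ∘ tail) (con Sᶜ ∘ head) T}
    let P' : Set A := ⋃₀ {T | T ∈ C ∧ (T ∩ Q).Nonempty}
    have hP' : P'.Finite := Set.Finite.sUnion (meet_finite hp.packing.disj hQ).1
      (fun T hT => (hp.packing.dicut T hT.1).1)
    obtain ⟨D, G, hDG, -⟩ := repair (tail := con Sᶜ ∘ tail) (head := con Sᶜ ∘ head) (C := C2)
      (F := F ∩ ⋃₀ C2) (P := P')
      ⟨fun T hT => hT.2, fun T hT T' hT' => hp.packing.disj T hT.1 T' hT'.1⟩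
      Set.inter_subset_right (by
        rintro T hT a ⟨ha, ha2⟩ b ⟨hb, hb2⟩
        obtain ⟨c, hc⟩ := hp.one T hT.1
        have f1 : a ∈ T ∩ F := ⟨ha, ha2.1⟩
        have f2 : b ∈ T ∩ F := ⟨hb, hb2.1⟩
        rw [hc, Set.mem_singleton_iff] at f1 f2
        rw [f1, f2]) hP' (by
        intro T hT
        obtain ⟨a, ha1, ha2⟩ := hp.meets T (hback T hT)
        refine ⟨a, ha1, ?_⟩
        obtain ⟨R, hR, haR⟩ := hp.sub ha2
        rcases hdich R (hp.packing.dicut R hR) with hQR | hloc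
        · exact Or.inr ⟨R, ⟨hR, hQR⟩, haR⟩
        · exact Or.inl ⟨ha2, R, ⟨hR, hloc⟩, haR⟩)
    exact ⟨D, G, hDG⟩

theorem pairAt_of_local (hconn : Conn tail head Set.univ) {U : Set V} (h : Local tail head U) :
    PairAt tail head U := by
  induction h with
  | escape U k h => exact hasPair_of_escape h
  | pair U h => exact h
  | separate U S hS _ ih => exact glue hconn hS ih

theorem hasPair_of_pairAt_univ (h : PairAt tail head Set.univ) : HasPair tail head := by
  have key : ∀ S : Set A, FDicut (con Set.univ ∘ tail) (con Set.univ ∘ head) S ↔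
      FDicut tail head S := by
    intro S
    rw [fdicut_con]
    constructor
    · rintro ⟨h1, h2, X, h3, h4, -⟩
      exact ⟨h1, h2, X, h3, h4⟩
    · rintro ⟨h1, h2, X, h3, h4⟩
      exact ⟨h1, h2, X, h3, h4, Or.inl (by simp)⟩
  obtain ⟨C, F, hp⟩ := h
  exact ⟨C, F, ⟨fun S hS => (key S).1 (hp.packing.dicut S hS), hp.packing.disj⟩, hp.sub, hp.one,
    fun S hS => hp.meets S ((key S).2 hS)⟩

/-- **The conjecture is local.** -/
theorem hasPair_of_local (hconn : Conn tail head Set.univ) (h : Local tail head Set.univ) :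
    HasPair tail head :=
  hasPair_of_pairAt_univ (pairAt_of_local hconn h)

/-- sequence form -/
theorem hasPair_of_sequences (hconn : Conn tail head Set.univ) (v : ℕ → V)
    (h : ∀ K : ℕ → Set V, K 0 = Set.univ → (∀ n, IsComp tail head (K n \ {v n}) (K (n + 1))) →
      ∃ n, PairAt tail head (K n)) : HasPair tail head := by
  classical
  apply hasPair_of_local hconn
  by_contra hcon
  have step : ∀ (n : ℕ) (K : {K : Set V // ¬ Local tail head K}),
      ∃ K' : {K : Set V // ¬ Local tail head K}, IsComp tail head (K.1 \ {v n}) K'.1 := by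
    rintro n ⟨K, hK⟩
    by_contra hc
    push Not at hc
    apply hK
    refine Local.separate K {v n} (Set.finite_singleton _) fun K' hK' => ?_
    by_contra hn
    exact hc ⟨K', hn⟩ hK'
  choose g hg using step
  let s : ℕ → {K : Set V // ¬ Local tail head K} := fun n =>
    Nat.rec ⟨Set.univ, hcon⟩ (fun n K => g n K) n
  obtain ⟨n, hn⟩ := h (fun n => (s n).1) rfl (fun n => hg n (s n))
  exact (s n).2 (Local.pair _ hn)

/-- **The infinite Lucchesi-Younger conjecture is local, and true for digraphs which locally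
have finite escape number.** -/
theorem result : ∀ (V A : Type) (tail head : A → V), Conn tail head Set.univ →
    Local tail head Set.univ → HasPair tail head :=
  fun _ _ _ _ hconn h => hasPair_of_local hconn h

end Pool.Agent.Results.MP_1e1a68_co.LocalGlobal
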