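import Pool.Agent.LYS.Ends

/-!
The infinite Lucchesi-Younger conjecture for countable digraphs all of whose ends are one-sided.
-/

set_option autoImplicit false

namespace Pool.Agent.Results.MP_1e1a68_co.OneSidedEnds

variable {V A : Type}

/-- `X` is the source side of a finite dicut: no arc enters `X`, and the set of arcs leaving `X` is
finite and nonempty. -/
def Source (tail head : A → V) (X : Set V) : Prop :=
  (∀ a : A, head a ∈ X → tail a ∈ X) ∧ {a : A | tail a ∈ X ∧ head a ∉ X}.Finite ∧
    {a : A | tail a ∈ X ∧ head a ∉ X}.Nonempty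

/-- `Y` is the sink side of a finite dicut: no arc leaves `Y`, and the set of arcs entering `Y` is
finite and nonempty. -/
def Sink (tail head : A → V) (Y : Set V) : Prop :=
  (∀ a : A, tail a ∈ Y → head a ∈ Y) ∧ {a : A | head a ∈ Y ∧ tail a ∉ Y}.Finite ∧
    {a : A | head a ∈ Y ∧ tail a ∉ Y}.Nonempty

/-- `K` contains infinitely many pairwise disjoint sets with the property `P`. -/
def Many (P : Set V → Prop) (K : Set V) : Prop :=
  ∃ Y : ℕ → Set V, (∀ n, P (Y n) ∧ Y n ⊆ K) ∧ ∀ m n, m ≠ n → Disjoint (Y m) (Y n)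

/-- `K` contains a binary tree of sets with the property `P`: a family indexed by the finite 0-1
words, where the two successors of each member are disjoint and contained in it. -/
def BinaryTree (P : Set V → Prop) (K : Set V) : Prop :=
  ∃ X : List Bool → Set V, (∀ σ, P (X σ) ∧ X σ ⊆ K) ∧ (∀ σ b, X (b :: σ) ⊆ X σ) ∧
    ∀ σ, Disjoint (X (true :: σ)) (X (false :: σ))

/-- `K` is a weak component of the digraph minus the finite vertex set `S`: a minimal nonempty
set of vertices outside of `S` that no arc avoiding `S` enters or leaves. -/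
def Component (tail head : A → V) (S : Finset V) (K : Set V) : Prop :=
  (K.Nonempty ∧ (∀ x ∈ K, x ∉ S) ∧
      ∀ a : A, tail a ∉ S → head a ∉ S → (tail a ∈ K ↔ head a ∈ K)) ∧
    ∀ L ⊆ K, L.Nonempty →
      (∀ a : A, tail a ∉ S → head a ∉ S → (tail a ∈ L ↔ head a ∈ L)) → L = K

/-- An end, as a direction: it chooses a weak component of the digraph minus `S` for every finite
vertex set `S`, in a consistent way. -/
def End (tail head : A → V) (e : Finset V → Set V) : Prop :=
  (∀ S, Component tail head S (e S)) ∧ ∀ S T : Finset V, S ⊆ T → e T ⊆ e S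

/-- The end `e` has a neighbourhood `K = e S` that contains no infinite family of pairwise
disjoint sink sides, and in which only countably many ends live or no binary tree of source sides
exists. -/
def Rooted (tail head : A → V) (e : Finset V → Set V) : Prop :=
  ∃ S : Finset V, ¬ Many (Sink tail head) (e S) ∧
    ({f | End tail head f ∧ f S = e S}.Countable ∨ ¬ BinaryTree (Source tail head) (e S))

/-- The end `e` is one-sided. -/
def OneSided (tail head : A → V) (e : Finset V → Set V) : Prop :=
  Rooted tail head e ∨ Rooted head tail e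

open Pool.Agent.LYS Pool.Agent.LYG in
theorem component_iff {tail head : A → V} {S : Finset V} {K : Set V} :
    Component tail head S K ↔ IsComp tail head ((S : Set V)ᶜ) K := by
  constructor
  · rintro ⟨⟨h1, h2, h3⟩, h4⟩
    refine ⟨fun x hx hS => h2 x hx (Finset.mem_coe.1 hS), h1, ?_, fun a h5 h6 => ?_⟩
    · intro L hL hne hadj
      apply h4 L hL hne
      intro a h5 h6
      constructor
      · intro h7
        exact (hadj a (hL h7) ((h3 a h5 h6).1 (hL h7))).1 h7
      · intro h7
        exact (hadj a ((h3 a h5 h6).2 (hL h7)) (hL h7)).2 h7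
    · exact h3 a (fun h => h5 (Finset.mem_coe.2 h)) (fun h => h6 (Finset.mem_coe.2 h))
  · intro h
    refine ⟨⟨h.ne, fun x hx hS => h.sub hx (Finset.mem_coe.2 hS), fun a h5 h6 => ?_⟩, ?_⟩
    · exact h.adj a (fun h => h5 (Finset.mem_coe.1 h)) (fun h => h6 (Finset.mem_coe.1 h))
    · intro L hL hne hadj
      apply h.conn L hL hne
      intro a h5 h6
      exact hadj a (fun h' => h.sub h5 (Finset.mem_coe.2 h'))
        (fun h' => h.sub h6 (Finset.mem_coe.2 h'))

open Pool.Agent.LYS Pool.Agent.LYG in
theorem end_iff {tail head : A → V} {e : Finset V → Set V} :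
    End tail head e ↔ Direction tail head e := by
  simp only [End, Direction, component_iff]

open Pool.Agent.LYS in
theorem source_iff {tail head : A → V} {X : Set V} : Source tail head X ↔ Gd tail head X :=
  ⟨fun h => ⟨h.1, h.2.1, h.2.2⟩, fun h => ⟨h.closed, h.fin, h.ne⟩⟩

open Pool.Agent.LYS in
theorem sink_iff {tail head : A → V} {X : Set V} : Sink tail head X ↔ Gd head tail X :=
  ⟨fun h => ⟨h.1, h.2.1, h.2.2⟩, fun h => ⟨h.closed, h.fin, h.ne⟩⟩

/-- Every countable weakly connected digraph all of whose ends are one-sided has a family of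
pairwise disjoint finite dicuts and an arc set `F`, inside their union and meeting each of them in
exactly one arc, such that `F` meets every finite dicut. -/
theorem result (V A : Type) [Countable V] (tail head : A → V)
    (hconn : ∀ X : Set V, X.Nonempty → (∀ a : A, tail a ∈ X ↔ head a ∈ X) → X = Set.univ)
    (hends : ∀ e : Finset V → Set V, End tail head e → OneSided tail head e) :
    ∃ (𝒞 : Set (Set A)) (F : Set A),
      (∀ C ∈ 𝒞, C.Finite ∧ C.Nonempty ∧
          ∃ X : Set V, (∀ a : A, head a ∈ X → tail a ∈ X) ∧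
            C = {a : A | tail a ∈ X ∧ head a ∉ X}) ∧
      (∀ C ∈ 𝒞, ∀ C' ∈ 𝒞, C ≠ C' → Disjoint C C') ∧
      F ⊆ ⋃₀ 𝒞 ∧
      (∀ C ∈ 𝒞, ∃ a : A, C ∩ F = {a}) ∧
      (∀ C : Set A, C.Finite → C.Nonempty →
          (∃ X : Set V, (∀ a : A, head a ∈ X → tail a ∈ X) ∧
            C = {a : A | tail a ∈ X ∧ head a ∉ X}) →
          (C ∩ F).Nonempty) := by
  have hc : Pool.Agent.LYG.Conn tail head Set.univ := by
    intro S _ hne hadj
    exact hconn S hne fun a => hadj a (Set.mem_univ _) (Set.mem_univ _)
  obtain ⟨𝒞, F, hp⟩ := Pool.Agent.LYS.hasPair_of_ends hc (by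
    intro e he
    obtain ⟨S, h1, h2⟩ | ⟨S, h1, h2⟩ := hends e (end_iff.2 he)
    · refine ⟨S, Or.inl ⟨?_, ?_⟩⟩
      · rintro ⟨Y, hY⟩
        exact h1 ⟨Y, by simpa only [sink_iff] using hY⟩
      · rcases h2 with h2 | h2
        · exact Or.inl (by simpa only [end_iff] using h2)
        · refine Or.inr ?_
          rintro ⟨X, hX⟩
          exact h2 ⟨X, by simpa only [source_iff] using hX⟩
    · refine ⟨S, Or.inr ⟨?_, ?_⟩⟩
      · rintro ⟨Y, hY⟩
        exact h1 ⟨Y, by simpa only [sink_iff] using hY⟩
      · rcases h2 with h2 | h2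
        · refine Or.inl ?_
          simpa only [end_iff, Pool.Agent.LYS.direction_iff_rev] using h2
        · refine Or.inr ?_
          rintro ⟨X, hX⟩
          exact h2 ⟨X, by simpa only [source_iff] using hX⟩)
  refine ⟨𝒞, F, fun C hC => hp.packing.dicut C hC, ?_, hp.sub, hp.one, ?_⟩
  · intro C hC C' hC' hne
    rw [Set.disjoint_iff_inter_eq_empty]
    by_contra h
    exact hne (hp.packing.disj C hC C' hC' (Set.nonempty_iff_ne_empty.2 h))
  · rintro C h1 h2 h3
    exact hp.meets C ⟨h1, h2, h3⟩

end Pool.Agent.Results.MP_1e1a68_co.OneSidedEnds
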