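import Mathlib

/-!
The rooted case of the infinite Lucchesi-Younger conjecture: if the source sides of the finite
dicuts form an intersecting family and a local finiteness condition downwards holds, then there is
an admissible pair.
-/

namespace Pool.Agent.Results.MP_1e1a68_co.RootedCase

variable {V A : Type}

/-- No arc enters `X`. -/
def Closed (tail head : A → V) (X : Set V) : Prop := ∀ a, head a ∈ X → tail a ∈ X

/-- The arcs leaving `X`. -/
def cut (tail head : A → V) (X : Set V) : Set A := {a | tail a ∈ X ∧ head a ∉ X}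

/-- `X` induces a weakly connected subdigraph: a nonempty part of `X` which is not joined by an
arc to the rest of `X` is all of `X`. -/
def Conn (tail head : A → V) (X : Set V) : Prop :=
  ∀ S ⊆ X, S.Nonempty → (∀ a, tail a ∈ X → head a ∈ X → (tail a ∈ S ↔ head a ∈ S)) → S = X

/-- `X` is a connected source side of a finite dicut. -/
structure Side (tail head : A → V) (X : Set V) : Prop where
  closed : Closed tail head X
  conn : Conn tail head X
  fin : (cut tail head X).Finite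
  ne : (cut tail head X).Nonempty

/-- The hypothesis: (1) if two connected source sides meet, some arc leaves their union;
(2) for every connected source side `X` only finitely many connected source sides `Y` properly
inside `X` have an arc in common with the dicut of `X` and start an infinite strictly decreasing
sequence of connected source sides. -/
structure Rooted (tail head : A → V) : Prop where
  union : ∀ X Y : Set V, Side tail head X → Side tail head Y → (X ∩ Y).Nonempty →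
    (cut tail head (X ∪ Y)).Nonempty
  below : ∀ X : Set V, Side tail head X →
    {Y : Set V | Side tail head Y ∧ Y ⊂ X ∧ (cut tail head Y ∩ cut tail head X).Nonempty ∧
      ∃ s : ℕ → Set V, s 0 = Y ∧ ∀ n, Side tail head (s n) ∧ s (n + 1) ⊂ s n}.Finite

section basics

variable {tail head : A → V}

theorem cut_union (X Y : Set V) :
    cut tail head (X ∪ Y) ⊆ cut tail head X ∪ cut tail head Y := by
  rintro a ⟨h1, h2⟩
  rcases h1 with h1 | h1
  · exact Or.inl ⟨h1, fun h => h2 (Or.inl h)⟩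
  · exact Or.inr ⟨h1, fun h => h2 (Or.inr h)⟩

theorem cut_inter (X Y : Set V) :
    cut tail head (X ∩ Y) ⊆ cut tail head X ∪ cut tail head Y := by
  rintro a ⟨h1, h2⟩
  by_cases h3 : head a ∈ X
  · exact Or.inr ⟨h1.2, fun h => h2 ⟨h3, h⟩⟩
  · exact Or.inl ⟨h1.1, h3⟩

theorem closed_union {X Y : Set V} (hX : Closed tail head X) (hY : Closed tail head Y) :
    Closed tail head (X ∪ Y) := by
  rintro a (h | h)
  · exact Or.inl (hX a h)
  · exact Or.inr (hY a h)

theorem closed_inter {X Y : Set V} (hX : Closed tail head X) (hY : Closed tail head Y) :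
    Closed tail head (X ∩ Y) := fun a h => ⟨hX a h.1, hY a h.2⟩

/-- The component of `X` containing `v`. -/
theorem exists_comp {X : Set V} (hX : Closed tail head X) {v : V} (hv : v ∈ X) :
    ∃ Z ⊆ X, v ∈ Z ∧ Closed tail head Z ∧ Conn tail head Z ∧
      cut tail head Z ⊆ cut tail head X := by
  classical
  let fam : Set (Set V) := {S | S ⊆ X ∧ v ∈ S ∧
    ∀ a, tail a ∈ X → head a ∈ X → (tail a ∈ S ↔ head a ∈ S)}
  let Z : Set V := ⋂₀ fam
  have hXf : X ∈ fam := ⟨subset_rfl, hv, fun a h1 h2 => ⟨fun _ => h2, fun _ => h1⟩⟩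
  have hZX : Z ⊆ X := Set.sInter_subset_of_mem hXf
  have hvZ : v ∈ Z := Set.mem_sInter.2 fun S hS => hS.2.1
  have hadj : ∀ a, tail a ∈ X → head a ∈ X → (tail a ∈ Z ↔ head a ∈ Z) := by
    intro a h1 h2
    constructor
    · intro h
      exact Set.mem_sInter.2 fun S hS => (hS.2.2 a h1 h2).1 (Set.mem_sInter.1 h S hS)
    · intro h
      exact Set.mem_sInter.2 fun S hS => (hS.2.2 a h1 h2).2 (Set.mem_sInter.1 h S hS)
  refine ⟨Z, hZX, hvZ, ?_, ?_, ?_⟩
  · intro a ha
    exact (hadj a (hX a (hZX ha)) (hZX ha)).2 ha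
  · intro T hT hTne hTadj
    have hTX : ∀ a, tail a ∈ X → head a ∈ X → (tail a ∈ T ↔ head a ∈ T) := by
      intro a h1 h2
      constructor
      · intro h
        exact (hTadj a (hT h) ((hadj a h1 h2).1 (hT h))).1 h
      · intro h
        exact (hTadj a ((hadj a h1 h2).2 (hT h)) (hT h)).2 h
    by_cases hvT : v ∈ T
    · apply subset_antisymm hT
      exact Set.sInter_subset_of_mem (show T ∈ fam from ⟨hT.trans hZX, hvT, hTX⟩)
    · exfalso
      have hmem : Z \ T ∈ fam := by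
        refine ⟨fun x hx => hZX hx.1, ⟨hvZ, hvT⟩, ?_⟩
        intro a h1 h2
        constructor
        · rintro ⟨h3, h4⟩
          exact ⟨(hadj a h1 h2).1 h3, fun h => h4 ((hTX a h1 h2).2 h)⟩
        · rintro ⟨h3, h4⟩
          exact ⟨(hadj a h1 h2).2 h3, fun h => h4 ((hTX a h1 h2).1 h)⟩
      obtain ⟨t, ht⟩ := hTne
      exact (Set.sInter_subset_of_mem hmem (hT ht)).2 ht
  · rintro a ⟨h1, h2⟩
    refine ⟨hZX h1, fun h => h2 ?_⟩
    exact (hadj a (hZX h1) h).1 h1

/-- The component of a closed set with finite boundary at a boundary arc. -/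
theorem exists_side {X : Set V} (hX : Closed tail head X) (hf : (cut tail head X).Finite) {g : A}
    (hg : g ∈ cut tail head X) :
    ∃ Z ⊆ X, Side tail head Z ∧ g ∈ cut tail head Z ∧ cut tail head Z ⊆ cut tail head X := by
  obtain ⟨Z, h1, h2, h3, h4, h5⟩ := exists_comp hX hg.1
  have hgZ : g ∈ cut tail head Z := ⟨h2, fun h => hg.2 (h1 h)⟩
  exact ⟨Z, h1, ⟨h3, h4, hf.subset h5, ⟨g, hgZ⟩⟩, hgZ, h5⟩

theorem side_union {X Y : Set V} (hX : Side tail head X) (hY : Side tail head Y)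
    (hXY : (X ∩ Y).Nonempty) (hne : (cut tail head (X ∪ Y)).Nonempty) :
    Side tail head (X ∪ Y) := by
  refine ⟨closed_union hX.closed hY.closed, ?_, (hX.fin.union hY.fin).subset (cut_union X Y), hne⟩
  intro S hS hSne hadj
  have key : ∀ P Q : Set V, Conn tail head P → Conn tail head Q → P ⊆ X ∪ Y → Q ⊆ X ∪ Y →
      (P ∩ Q).Nonempty → (S ∩ P).Nonempty → P ⊆ S ∧ Q ⊆ S := by
    intro P Q hP hQ hPs hQs hPQ hSP
    have e1 : S ∩ P = P := by
      apply hP _ Set.inter_subset_right hSP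
      intro a h1 h2
      have := hadj a (hPs h1) (hPs h2)
      exact ⟨fun h => ⟨this.1 h.1, h2⟩, fun h => ⟨this.2 h.1, h1⟩⟩
    have hPS : P ⊆ S := by rw [← e1]; exact Set.inter_subset_left
    have e2 : S ∩ Q = Q := by
      apply hQ _ Set.inter_subset_right
      · obtain ⟨x, hx⟩ := hPQ
        exact ⟨x, hPS hx.1, hx.2⟩
      intro a h1 h2
      have := hadj a (hQs h1) (hQs h2)
      exact ⟨fun h => ⟨this.1 h.1, h2⟩, fun h => ⟨this.2 h.1, h1⟩⟩
    exact ⟨hPS, by rw [← e2]; exact Set.inter_subset_left⟩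
  obtain ⟨x, hx⟩ := hSne
  apply subset_antisymm hS
  rcases hS hx with h | h
  · obtain ⟨k1, k2⟩ := key X Y hX.conn hY.conn Set.subset_union_left Set.subset_union_right hXY
      ⟨x, hx, h⟩
    exact Set.union_subset k1 k2
  · obtain ⟨k1, k2⟩ := key Y X hY.conn hX.conn Set.subset_union_right Set.subset_union_left
      (by rwa [Set.inter_comm]) ⟨x, hx, h⟩
    exact Set.union_subset k2 k1

end basics

/-! ### Kernels -/

/-- finite kernel -/
theorem finite_kernel {α : Type*} [PartialOrder α] (Q : α → Finset α)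
    (hQ : ∀ X Y, Y ∈ Q X → Y < X) (b : α → Prop) :
    ∀ (n : ℕ) (T : Finset α), T.card = n →
      ∃ c : α → Prop, ∀ X ∈ T, (c X ↔ b X ∧ ∀ Y ∈ T, Y ∈ Q X → ¬ c Y) := by
  classical
  intro n
  induction n with
  | zero =>
    intro T hT
    rw [Finset.card_eq_zero] at hT
    subst hT
    exact ⟨fun _ => False, by simp⟩
  | succ n ih =>
    intro T hT
    have hne : T.Nonempty := by
      rw [← Finset.card_pos, hT]; omega
    obtain ⟨m, hm⟩ := T.exists_maximal hne
    obtain ⟨c, hc⟩ := ih (T.erase m) (by rw [Finset.card_erase_of_mem hm.prop, hT]; rfl)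
    refine ⟨fun X => if X = m then (b m ∧ ∀ Y ∈ T.erase m, Y ∈ Q m → ¬ c Y) else c X, ?_⟩
    intro X hX
    by_cases hXm : X = m
    · subst hXm
      simp only [if_true]
      constructor
      · rintro ⟨h1, h2⟩
        refine ⟨h1, fun Y hY hYQ => ?_⟩
        have hne' : Y ≠ X := (hQ _ _ hYQ).ne
        rw [if_neg hne']
        exact h2 Y (Finset.mem_erase.2 ⟨hne', hY⟩) hYQ
      · rintro ⟨h1, h2⟩
        refine ⟨h1, fun Y hY hYQ => ?_⟩
        have hne' : Y ≠ X := (hQ _ _ hYQ).ne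
        have := h2 Y (Finset.mem_of_mem_erase hY) hYQ
        rwa [if_neg hne'] at this
    · simp only [if_neg hXm]
      rw [hc X (Finset.mem_erase.2 ⟨hXm, hX⟩)]
      constructor
      · rintro ⟨h1, h2⟩
        refine ⟨h1, fun Y hY hYQ => ?_⟩
        have hne' : Y ≠ m := by
          rintro rfl
          exact absurd (hQ _ _ hYQ) (hm.not_gt hX)
        rw [if_neg hne']
        exact h2 Y (Finset.mem_erase.2 ⟨hne', hY⟩) hYQ
      · rintro ⟨h1, h2⟩
        refine ⟨h1, fun Y hY hYQ => ?_⟩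
        have hne' : Y ≠ m := (Finset.mem_erase.1 hY).1
        have := h2 Y (Finset.mem_of_mem_erase hY) hYQ
        rwa [if_neg hne'] at this

/-- kernels by compactness -/
theorem compact_kernel {α : Type*} [PartialOrder α] (Q : α → Finset α)
    (hQ : ∀ X Y, Y ∈ Q X → Y < X) (b : α → Prop) :
    ∃ c : α → Prop, ∀ X, (c X ↔ b X ∧ ∀ Y ∈ Q X, ¬ c Y) := by
  classical
  have hfin : ∀ s : Finset α, ∃ c : α → Prop, ∀ X ∈ s, (c X ↔ b X ∧ ∀ Y ∈ Q X, ¬ c Y) := by
    intro s
    obtain ⟨c, hc⟩ := finite_kernel Q hQ b _ (s ∪ s.biUnion Q) rfl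
    refine ⟨c, fun X hX => ?_⟩
    rw [hc X (Finset.mem_union_left _ hX)]
    constructor
    · rintro ⟨h1, h2⟩
      exact ⟨h1, fun Y hY => h2 Y (Finset.mem_union_right _ (Finset.mem_biUnion.2 ⟨X, hX, hY⟩)) hY⟩
    · rintro ⟨h1, h2⟩
      exact ⟨h1, fun Y _ hY => h2 Y hY⟩
  choose g hg using hfin
  obtain ⟨χ, hχ⟩ := Finset.rado_selection (β := fun _ => Prop) g
  refine ⟨χ, fun X => ?_⟩
  obtain ⟨t, ht, hχt⟩ := hχ (insert X (Q X))
  rw [hχt X (Finset.mem_insert_self _ _), hg t X (ht (Finset.mem_insert_self _ _))]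
  constructor
  · rintro ⟨h1, h2⟩
    exact ⟨h1, fun Y hY => by rw [hχt Y (Finset.mem_insert_of_mem hY)]; exact h2 Y hY⟩
  · rintro ⟨h1, h2⟩
    exact ⟨h1, fun Y hY => by rw [← hχt Y (Finset.mem_insert_of_mem hY)]; exact h2 Y hY⟩

/-- kernels on the well-founded part -/
theorem wf_kernel {α : Type*} (r : α → α → Prop) (share : α → α → Prop) :
    ∃ c : α → Prop, ∀ X, Acc r X → (c X ↔ ∀ Y, r Y X → share Y X → ¬ c Y) := by
  classical
  have hwf : WellFounded (fun a b : {X : α // Acc r X} => r a.1 b.1) := by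
    constructor
    rintro ⟨a, ha⟩
    induction ha with
    | intro x hx ih =>
      constructor
      rintro ⟨y, hy⟩ hyx
      exact ih y hyx
  let c0 : {X : α // Acc r X} → Prop :=
    hwf.fix (fun a ih => ∀ Y (h : r Y.1 a.1), share Y.1 a.1 → ¬ ih Y h)
  have hc0 : ∀ a, c0 a ↔ ∀ Y : {X : α // Acc r X}, r Y.1 a.1 → share Y.1 a.1 → ¬ c0 Y := by
    intro a
    have := hwf.fix_eq (fun (a : {X : α // Acc r X}) (ih : ∀ Y : {X : α // Acc r X}, r Y.1 a.1 → Prop) =>
      ∀ Y (h : r Y.1 a.1), share Y.1 a.1 → ¬ ih Y h) a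
    exact iff_of_eq this
  refine ⟨fun X => ∃ h : Acc r X, c0 ⟨X, h⟩, fun X hX => ?_⟩
  constructor
  · rintro ⟨h, hc⟩ Y hY hs ⟨h', hc'⟩
    exact (hc0 _).1 hc ⟨Y, h'⟩ hY hs hc'
  · intro h
    refine ⟨hX, (hc0 _).2 fun Y hY hs hc => h Y.1 hY hs ⟨Y.2, hc⟩⟩

variable {tail head : A → V}

/-- the greedy packing -/
theorem exists_kernel (h : Rooted tail head) :
    ∃ c : Set V → Prop, ∀ X, Side tail head X → (c X ↔ ∀ Y, Side tail head Y → Y ⊂ X →
      (cut tail head Y ∩ cut tail head X).Nonempty → ¬ c Y) := by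
  classical
  let r : Set V → Set V → Prop := fun Y X => Side tail head Y ∧ Y ⊂ X
  let share : Set V → Set V → Prop := fun Y X => (cut tail head Y ∩ cut tail head X).Nonempty
  obtain ⟨c1, hc1⟩ := wf_kernel r share
  let α := {X : Set V // Side tail head X ∧ ¬ Acc r X}
  have hQf : ∀ X : α, {Y : α | Y < X ∧ share Y.1 X.1}.Finite := by
    intro X
    have := h.below X.1 X.2.1
    apply Set.Finite.of_finite_image (f := fun Y : α => Y.1) _ Subtype.val_injective.injOn
    apply this.subset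
    rintro _ ⟨Y, ⟨hY1, hY2⟩, rfl⟩
    refine ⟨Y.2.1, hY1, hY2, ?_⟩
    obtain ⟨f, hf0, hf⟩ := not_acc_iff_exists_descending_chain.1 Y.2.2
    refine ⟨f, hf0, fun n => ⟨?_, (hf n).2⟩⟩
    rcases n with _ | n
    · rw [hf0]; exact Y.2.1
    · exact (hf n).1
  obtain ⟨c2, hc2⟩ := compact_kernel (α := α) (fun X => (hQf X).toFinset)
    (fun X Y hY => ((Set.Finite.mem_toFinset _).1 hY).1)
    (fun X => ∀ Y, Acc r Y → r Y X.1 → share Y X.1 → ¬ c1 Y)
  refine ⟨fun X => (Acc r X ∧ c1 X) ∨ ∃ hX : Side tail head X ∧ ¬ Acc r X, c2 ⟨X, hX⟩, ?_⟩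
  intro X hX
  by_cases hacc : Acc r X
  · have e1 : ((Acc r X ∧ c1 X) ∨ ∃ hX : Side tail head X ∧ ¬ Acc r X, c2 ⟨X, hX⟩) ↔ c1 X := by
      constructor
      · rintro (⟨-, h1⟩ | ⟨⟨-, h1⟩, -⟩)
        · exact h1
        · exact absurd hacc h1
      · intro h1
        exact Or.inl ⟨hacc, h1⟩
    show ((Acc r X ∧ c1 X) ∨ ∃ hX : Side tail head X ∧ ¬ Acc r X, c2 ⟨X, hX⟩) ↔ _
    rw [e1, hc1 X hacc]
    constructor
    · rintro h1 Y hY hYX hs (⟨-, h2⟩ | ⟨⟨-, h2⟩, -⟩)
      · exact h1 Y ⟨hY, hYX⟩ hs h2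
      · exact h2 (hacc.inv (show r Y X from ⟨hY, hYX⟩))
    · intro h1 Y hY hs h2
      exact h1 Y hY.1 hY.2 hs (Or.inl ⟨hacc.inv hY, h2⟩)
  · have e1 : ((Acc r X ∧ c1 X) ∨ ∃ hX : Side tail head X ∧ ¬ Acc r X, c2 ⟨X, hX⟩) ↔
        c2 ⟨X, hX, hacc⟩ := by
      constructor
      · rintro (⟨h1, -⟩ | ⟨h2, h1⟩)
        · exact absurd h1 hacc
        · exact h1
      · intro h1
        exact Or.inr ⟨⟨hX, hacc⟩, h1⟩
    show ((Acc r X ∧ c1 X) ∨ ∃ hX : Side tail head X ∧ ¬ Acc r X, c2 ⟨X, hX⟩) ↔ _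
    rw [e1, hc2 ⟨X, hX, hacc⟩]
    constructor
    · rintro ⟨h1, h2⟩ Y hY hYX hs (⟨h3, h4⟩ | ⟨h3, h4⟩)
      · exact h1 Y h3 ⟨hY, hYX⟩ hs h4
      · exact h2 ⟨Y, h3⟩ ((Set.Finite.mem_toFinset _).2 ⟨hYX, hs⟩) h4
    · intro h1
      refine ⟨fun Y hY hr hs hc => h1 Y hr.1 hr.2 hs (Or.inl ⟨hY, hc⟩), fun Y hY hc => ?_⟩
      have hY' := (Set.Finite.mem_toFinset _).1 hY
      exact h1 Y.1 Y.2.1 hY'.1 hY'.2 (Or.inr ⟨Y.2, hc⟩)

/-- the properties of the greedy packing which are used below -/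
structure Greedy (tail head : A → V) (C : Set (Set V)) : Prop where
  side : ∀ X ∈ C, Side tail head X
  disj : ∀ X ∈ C, ∀ Y ∈ C, (cut tail head X ∩ cut tail head Y).Nonempty → X = Y
  absorb : ∀ Z, Side tail head Z → Z ∉ C →
    ∃ Y ∈ C, Y ⊂ Z ∧ (cut tail head Y ∩ cut tail head Z).Nonempty

theorem exists_greedy (h : Rooted tail head) : ∃ C, Greedy tail head C := by
  classical
  obtain ⟨c, hc⟩ := exists_kernel h
  have habs : ∀ Z, Side tail head Z → ¬ c Z →
      ∃ Y, Side tail head Y ∧ c Y ∧ Y ⊂ Z ∧ (cut tail head Y ∩ cut tail head Z).Nonempty := by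
    intro Z hZ hcZ
    rw [hc Z hZ] at hcZ
    push Not at hcZ
    obtain ⟨Y, h1, h2, h3, h4⟩ := hcZ
    exact ⟨Y, h1, h4, h2, h3⟩
  refine ⟨{X | Side tail head X ∧ c X}, fun X hX => hX.1, ?_, ?_⟩
  · rintro X ⟨hX, hcX⟩ Y ⟨hY, hcY⟩ ⟨e, heX, heY⟩
    by_contra hne
    have hXY : e ∈ cut tail head (X ∩ Y) := ⟨⟨heX.1, heY.1⟩, fun h => heX.2 h.1⟩
    obtain ⟨Z, hZ, hZs, heZ, hZc⟩ := exists_side (closed_inter hX.closed hY.closed)
      ((hX.fin.union hY.fin).subset (cut_inter X Y)) hXY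
    have hZX : Z ⊆ X := hZ.trans Set.inter_subset_left
    have hZY : Z ⊆ Y := hZ.trans Set.inter_subset_right
    by_cases hZX' : Z = X
    · -- X ⊂ Y
      have hlt : X ⊂ Y := lt_of_le_of_ne (by rw [← hZX']; exact hZY) hne
      exact (hc Y hY).1 hcY X hX hlt ⟨e, heX, heY⟩ hcX
    by_cases hZY' : Z = Y
    · have hlt : Y ⊂ X := lt_of_le_of_ne (by rw [← hZY']; exact hZX) (Ne.symm hne)
      exact (hc X hX).1 hcX Y hY hlt ⟨e, heY, heX⟩ hcY
    have hZXs : Z ⊂ X := lt_of_le_of_ne hZX hZX'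
    have hZYs : Z ⊂ Y := lt_of_le_of_ne hZY hZY'
    by_cases hcZ : c Z
    · exact (hc X hX).1 hcX Z hZs hZXs ⟨e, heZ, heX⟩ hcZ
    · obtain ⟨W, hW, hcW, hWZ, e', he'W, he'Z⟩ := habs Z hZs hcZ
      rcases cut_inter X Y (hZc he'Z) with h1 | h1
      · exact (hc X hX).1 hcX W hW (hWZ.trans hZXs) ⟨e', he'W, h1⟩ hcW
      · exact (hc Y hY).1 hcY W hW (hWZ.trans hZYs) ⟨e', he'W, h1⟩ hcW
  · intro Z hZ hnot
    have hcZ : ¬ c Z := fun h => hnot ⟨hZ, h⟩
    obtain ⟨Y, h1, h2, h3, h4⟩ := habs Z hZ hcZ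
    exact ⟨Y, ⟨h1, h2⟩, h3, h4⟩

/-- union of finitely many sides containing a common nonempty set -/
theorem side_biUnion (h : Rooted tail head) {X0 : Set V} (hX0 : X0.Nonempty) {ι : Type*}
    (W : ι → Set V) (s : Finset ι) (hs : s.Nonempty)
    (hW : ∀ a ∈ s, Side tail head (W a) ∧ X0 ⊆ W a) :
    Side tail head (⋃ a ∈ s, W a) ∧ X0 ⊆ ⋃ a ∈ s, W a := by
  classical
  induction hs using Finset.Nonempty.cons_induction with
  | singleton a =>
    simpa using hW a (Finset.mem_singleton_self a)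
  | cons a s ha hs ih =>
    obtain ⟨i1, i2⟩ := ih (fun b hb => hW b (Finset.mem_cons_of_mem hb))
    obtain ⟨j1, j2⟩ := hW a (Finset.mem_cons_self a s)
    have e : (⋃ b ∈ Finset.cons a s ha, W b) = W a ∪ ⋃ b ∈ s, W b := by
      rw [Finset.cons_eq_insert, Finset.set_biUnion_insert]
    rw [e]
    have hne : (W a ∩ ⋃ b ∈ s, W b).Nonempty := by
      obtain ⟨x, hx⟩ := hX0
      exact ⟨x, j2 hx, i2 hx⟩
    exact ⟨side_union j1 i1 hne (h.union _ _ j1 i1 hne), j2.trans Set.subset_union_left⟩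

/-- the finite selection, from the top to the bottom -/
theorem finite_selection [Nonempty A] (h : Rooted tail head) {C : Set (Set V)} (hC : Greedy tail head C)
    (T : Finset (Set V)) (hT : ∀ X ∈ T, X ∈ C) :
    ∀ n ≤ T.card, ∃ D ⊆ T, D.card = n ∧ (∀ X ∈ T, X ∉ D → ∀ Y ∈ T, Y ⊂ X → Y ∉ D) ∧
      ∃ f : Set V → A, (∀ X ∈ D, f X ∈ cut tail head X) ∧
        ∀ Z, Side tail head Z →
          (∀ X ∈ C, (cut tail head X ∩ cut tail head Z).Nonempty → X ∈ T) →
          (∃ X ∈ D, f X ∈ cut tail head Z) ∨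
          (∃ X ∈ T, X ∉ D ∧ (cut tail head X ∩ cut tail head Z).Nonempty) := by
  classical
  intro n
  induction n with
  | zero =>
    intro _
    refine ⟨∅, by simp, by simp, by simp, ?_⟩
    refine ⟨fun _ => Classical.arbitrary A, by simp, ?_⟩
    intro Z hZ hZT
    right
    by_cases hZC : Z ∈ C
    · have := hZT Z hZC (by rw [Set.inter_self]; exact hZ.ne)
      exact ⟨Z, this, by simp, by rw [Set.inter_self]; exact hZ.ne⟩
    · obtain ⟨Y, h1, -, h3⟩ := hC.absorb Z hZ hZC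
      exact ⟨Y, hZT Y h1 h3, by simp, h3⟩
  | succ n ih =>
    intro hn
    obtain ⟨D, hDT, hDn, hDdown, f, hf, hhit⟩ := ih (by omega)
    have hne : (T \ D).Nonempty := by
      rw [← Finset.card_pos, Finset.card_sdiff_of_subset hDT]
      omega
    obtain ⟨M, hM⟩ := (T \ D).exists_maximal hne
    have hMT : M ∈ T := (Finset.mem_sdiff.1 hM.prop).1
    have hMD : M ∉ D := (Finset.mem_sdiff.1 hM.prop).2
    have hMs : Side tail head M := hC.side M (hT M hMT)
    -- the choice of the arc for M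
    obtain ⟨a, haM, ha⟩ : ∃ a ∈ cut tail head M, ∀ Z, Side tail head Z →
        (∀ X ∈ C, (cut tail head X ∩ cut tail head Z).Nonempty → X ∈ T) →
        (∃ X ∈ D, f X ∈ cut tail head Z) ∨ a ∈ cut tail head Z ∨
          (∃ X ∈ T, X ∉ D ∧ X ≠ M ∧ (cut tail head X ∩ cut tail head Z).Nonempty) := by
      by_contra hcon
      push Not at hcon
      choose W hW using hcon
      -- `M ⊆ W a`
      have hMW : ∀ a (ha : a ∈ cut tail head M), M ⊆ W a ha := by
        intro a ha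
        obtain ⟨w1, w2, w3, w4, w5⟩ := hW a ha
        obtain ⟨g, hgM, hgW⟩ : (cut tail head M ∩ cut tail head (W a ha)).Nonempty := by
          rcases hhit (W a ha) w1 w2 with ⟨X, hX, hX'⟩ | ⟨X, hX, hXD, hX'⟩
          · exact absurd hX' (w3 X hX)
          · by_cases hXM : X = M
            · rwa [hXM] at hX'
            · exact absurd hX' (Set.not_nonempty_iff_eq_empty.2 (w5 X hX hXD hXM))
        have hgi : g ∈ cut tail head (M ∩ W a ha) := ⟨⟨hgM.1, hgW.1⟩, fun h => hgM.2 h.1⟩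
        obtain ⟨Y, hY, hYs, hgY, hYc⟩ := exists_side (closed_inter hMs.closed w1.closed)
          ((hMs.fin.union w1.fin).subset (cut_inter M (W a ha))) hgi
        have hYM : Y ⊆ M := hY.trans Set.inter_subset_left
        by_cases hYC : Y ∈ C
        · have : Y = M := hC.disj Y hYC M (hT M hMT) ⟨g, hgY, hgM⟩
          rw [← this]
          exact hY.trans Set.inter_subset_right
        · exfalso
          obtain ⟨Y', hY'C, hY'Y, e', he'1, he'2⟩ := hC.absorb Y hYs hYC
          have hY'M : Y' ⊂ M := lt_of_lt_of_le hY'Y hYM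
          rcases cut_inter M (W a ha) (hYc he'2) with h1 | h1
          · have : Y' = M := hC.disj Y' hY'C M (hT M hMT) ⟨e', he'1, h1⟩
            exact hY'M.ne this
          · have hY'T : Y' ∈ T := w2 Y' hY'C ⟨e', he'1, h1⟩
            have hY'D : Y' ∉ D := hDdown M hMT hMD Y' hY'T hY'M
            have := w5 Y' hY'T hY'D hY'M.ne
            exact Set.notMem_empty e' (this ▸ ⟨he'1, h1⟩)
      -- the union of all `W a`
      have hMne : M.Nonempty := ⟨_, hMs.ne.some_mem.1⟩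
      let s : Finset {a // a ∈ cut tail head M} :=
        (Set.Finite.toFinset (Set.finite_univ_iff.2 hMs.fin.to_subtype) :
          Finset {a // a ∈ cut tail head M})
      have hs : s.Nonempty := ⟨⟨_, hMs.ne.some_mem⟩, by simp [s]⟩
      have hmem : ∀ a : {a // a ∈ cut tail head M}, a ∈ s := fun a => by simp [s]
      obtain ⟨u1, u2⟩ := side_biUnion h hMne (fun a : {a // a ∈ cut tail head M} => W a.1 a.2) s hs
        (fun a _ => ⟨(hW a.1 a.2).1, hMW a.1 a.2⟩)
      set U : Set V := ⋃ a ∈ s, W a.1 a.2 with hU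
      have hcutU : ∀ e ∈ cut tail head U, ∃ a : {a // a ∈ cut tail head M},
          e ∈ cut tail head (W a.1 a.2) := by
        rintro e ⟨he1, he2⟩
        rw [hU, Set.mem_iUnion₂] at he1
        obtain ⟨a, ha, he1⟩ := he1
        refine ⟨a, he1, fun h => he2 ?_⟩
        rw [hU, Set.mem_iUnion₂]
        exact ⟨a, ha, h⟩
      have hUT : ∀ X ∈ C, (cut tail head X ∩ cut tail head U).Nonempty → X ∈ T := by
        rintro X hX ⟨e, he1, he2⟩
        obtain ⟨a, ha⟩ := hcutU e he2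
        exact (hW a.1 a.2).2.1 X hX ⟨e, he1, ha⟩
      rcases hhit U u1 hUT with ⟨X, hX, hX'⟩ | ⟨X, hX, hXD, e, he1, he2⟩
      · obtain ⟨a, ha⟩ := hcutU _ hX'
        exact (hW a.1 a.2).2.2.1 X hX ha
      · obtain ⟨a, ha⟩ := hcutU e he2
        by_cases hXM : X = M
        · subst hXM
          -- the head of `e` is in `W e`
          have hWe := hW e he1
          have : head e ∈ W e he1 := by
            by_contra hcon
            exact hWe.2.2.2.1 ⟨hMW e he1 he1.1, hcon⟩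
          apply he2.2
          rw [hU, Set.mem_iUnion₂]
          exact ⟨⟨e, he1⟩, hmem _, this⟩
        · have := (hW a.1 a.2).2.2.2.2 X hX hXD hXM
          exact Set.notMem_empty e (this ▸ ⟨he1, ha⟩)
    refine ⟨insert M D, ?_, ?_, ?_, Function.update f M a, ?_, ?_⟩
    · exact Finset.insert_subset hMT hDT
    · rw [Finset.card_insert_of_notMem hMD, hDn]
    · intro X hX hXD Y hY hYX
      rw [Finset.mem_insert, not_or] at hXD
      rw [Finset.mem_insert, not_or]
      refine ⟨?_, hDdown X hX hXD.2 Y hY hYX⟩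
      rintro rfl
      exact hM.not_gt (Finset.mem_sdiff.2 ⟨hX, hXD.2⟩) hYX
    · intro X hX
      by_cases hXM : X = M
      · subst hXM
        rw [Function.update_self]
        exact haM
      · rw [Function.update_of_ne hXM]
        rw [Finset.mem_insert] at hX
        exact hf X (hX.resolve_left hXM)
    · intro Z hZ hZT
      rcases ha Z hZ hZT with ⟨X, hX, hX'⟩ | h1 | ⟨X, hX, hXD, hXM, hX'⟩
      · left
        refine ⟨X, Finset.mem_insert_of_mem hX, ?_⟩
        have hXM : X ≠ M := fun h => hMD (h ▸ hX)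
        rwa [Function.update_of_ne hXM]
      · left
        refine ⟨M, Finset.mem_insert_self _ _, ?_⟩
        rwa [Function.update_self]
      · right
        refine ⟨X, hX, ?_, hX'⟩
        rw [Finset.mem_insert, not_or]
        exact ⟨hXM, hXD⟩

/-- the selection -/
theorem selection (h : Rooted tail head) {C : Set (Set V)} (hC : Greedy tail head C) :
    ∃ χ : (X : C) → {a // a ∈ cut tail head X.1}, ∀ Z, Side tail head Z →
      ∃ X : C, (χ X).1 ∈ cut tail head Z := by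
  classical
  by_cases hA : Nonempty A
  · have hfin : ∀ X : C, Finite {a // a ∈ cut tail head X.1} :=
      fun X => (hC.side X.1 X.2).fin.to_subtype
    have hex : ∀ t : Finset C, ∃ g : (X : C) → {a // a ∈ cut tail head X.1},
        ∀ Z, Side tail head Z →
          (∀ X : C, (cut tail head X.1 ∩ cut tail head Z).Nonempty → X ∈ t) →
          ∃ X ∈ t, (g X).1 ∈ cut tail head Z := by
      intro t
      obtain ⟨D, hDT, hDn, -, f, hf, hhit⟩ := finite_selection h hC (t.map ⟨Subtype.val, Subtype.val_injective⟩)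
        (by
          intro X hX
          obtain ⟨Y, -, rfl⟩ := Finset.mem_map.1 hX
          exact Y.2) _ le_rfl
      have hD : D = t.map ⟨Subtype.val, Subtype.val_injective⟩ :=
        Finset.eq_of_subset_of_card_le hDT (by rw [hDn])
      refine ⟨fun X => if hX : X ∈ t then ⟨f X.1, hf X.1 (by
        rw [hD]; exact Finset.mem_map.2 ⟨X, hX, rfl⟩)⟩ else
          ⟨(hC.side X.1 X.2).ne.some, (hC.side X.1 X.2).ne.some_mem⟩, ?_⟩
      intro Z hZ hZT
      rcases hhit Z hZ (fun X hX hs => Finset.mem_map.2 ⟨⟨X, hX⟩, hZT ⟨X, hX⟩ hs, rfl⟩) with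
        ⟨X, hX, hX'⟩ | ⟨X, hX, hXD, -⟩
      · rw [hD] at hX
        obtain ⟨X', hX't, rfl⟩ := Finset.mem_map.1 hX
        refine ⟨X', hX't, ?_⟩
        simp only [dif_pos hX't]
        exact hX'
      · exact absurd (hD ▸ hX) hXD
    choose g hg using hex
    obtain ⟨χ, hχ⟩ := Finset.rado_selection (β := fun X : C => {a // a ∈ cut tail head X.1}) g
    refine ⟨χ, fun Z hZ => ?_⟩
    -- the members meeting the dicut of `Z`
    have hSf : {X : C | (cut tail head X.1 ∩ cut tail head Z).Nonempty}.Finite := by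
      have hinj : ∀ X : {X : C // (cut tail head X.1 ∩ cut tail head Z).Nonempty},
          ∃ a : {a // a ∈ cut tail head Z}, a.1 ∈ cut tail head X.1.1 := by
        rintro ⟨X, a, ha1, ha2⟩
        exact ⟨⟨a, ha2⟩, ha1⟩
      choose φ hφ using hinj
      have : Finite {a // a ∈ cut tail head Z} := hZ.fin.to_subtype
      have : Finite {X : C // (cut tail head X.1 ∩ cut tail head Z).Nonempty} := by
        apply Finite.of_injective φ
        intro X Y hXY
        apply Subtype.ext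
        apply Subtype.ext
        exact hC.disj _ X.1.2 _ Y.1.2 ⟨(φ X).1, hφ X, by rw [hXY]; exact hφ Y⟩
      exact Set.finite_coe_iff.1 this
    obtain ⟨t, ht, hχt⟩ := hχ hSf.toFinset
    obtain ⟨X, hX, hX'⟩ := hg t Z hZ (fun X hs => ht (hSf.mem_toFinset.2 hs))
    refine ⟨X, ?_⟩
    rw [hχt X (hSf.mem_toFinset.2 ⟨_, (g t X).2, hX'⟩)]
    exact hX'
  · refine ⟨fun X => absurd ⟨(hC.side X.1 X.2).ne.some⟩ hA, fun Z hZ => absurd ⟨hZ.ne.some⟩ hA⟩

/-- the conclusion of the conjecture for one digraph -/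
def HasPair (tail head : A → V) : Prop :=
  ∃ (𝒞 : Set (Set A)) (F : Set A),
    (∀ C ∈ 𝒞, C.Finite ∧ C.Nonempty ∧
        ∃ X : Set V, (∀ a : A, head a ∈ X → tail a ∈ X) ∧
          C = {a : A | tail a ∈ X ∧ head a ∉ X}) ∧
    (∀ C ∈ 𝒞, ∀ C' ∈ 𝒞, C ≠ C' → Disjoint C C') ∧
    F ⊆ ⋃₀ 𝒞 ∧
    (∀ C ∈ 𝒞, ∃ a : A, C ∩ F = {a}) ∧
    (∀ C : Set A, C.Finite → C.Nonempty →
        (∃ X : Set V, (∀ a : A, head a ∈ X → tail a ∈ X) ∧
          C = {a : A | tail a ∈ X ∧ head a ∉ X}) →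
        (C ∩ F).Nonempty)

theorem hasPair_of_rooted (h : Rooted tail head) : HasPair tail head := by
  classical
  obtain ⟨C, hC⟩ := exists_greedy h
  obtain ⟨χ, hχ⟩ := selection h hC
  refine ⟨{c | ∃ X ∈ C, c = cut tail head X}, {a | ∃ X : C, a = (χ X).1}, ?_, ?_, ?_, ?_, ?_⟩
  · rintro c ⟨X, hX, rfl⟩
    exact ⟨(hC.side X hX).fin, (hC.side X hX).ne, X, (hC.side X hX).closed, rfl⟩
  · rintro c ⟨X, hX, rfl⟩ c' ⟨Y, hY, rfl⟩ hne
    rw [Set.disjoint_iff_inter_eq_empty]
    by_contra hcon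
    exact hne (by rw [hC.disj X hX Y hY (Set.nonempty_iff_ne_empty.2 hcon)])
  · rintro a ⟨X, rfl⟩
    exact ⟨_, ⟨X.1, X.2, rfl⟩, (χ X).2⟩
  · rintro c ⟨X, hX, rfl⟩
    refine ⟨(χ ⟨X, hX⟩).1, ?_⟩
    apply subset_antisymm
    · rintro a ⟨ha, Y, rfl⟩
      have : Y.1 = X := hC.disj _ Y.2 _ hX ⟨_, (χ Y).2, ha⟩
      have e : Y = ⟨X, hX⟩ := Subtype.ext this
      rw [e]
      rfl
    · rintro a rfl
      exact ⟨(χ ⟨X, hX⟩).2, _, rfl⟩
  · rintro c hfin ⟨g, hg⟩ ⟨X, hX, rfl⟩
    obtain ⟨Z, hZX, hZ, hgZ, hZc⟩ := exists_side (tail := tail) (head := head) (X := X) hX hfin hg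
    obtain ⟨Y, hY⟩ := hχ Z hZ
    exact ⟨_, hZc hY, Y, rfl⟩

theorem hasPair_reverse (h : HasPair head tail) : HasPair tail head := by
  obtain ⟨𝒞, F, h1, h2, h3, h4, h5⟩ := h
  refine ⟨𝒞, F, ?_, h2, h3, h4, ?_⟩
  · intro C hC
    obtain ⟨k1, k2, X, k3, k4⟩ := h1 C hC
    refine ⟨k1, k2, Xᶜ, fun a ha hb => ha (k3 a hb), ?_⟩
    rw [k4]
    ext a
    simp only [Set.mem_ofPred_eq, Set.mem_compl_iff, not_not]
    exact and_comm
  · rintro C k1 k2 ⟨X, k3, k4⟩
    refine h5 C k1 k2 ⟨Xᶜ, fun a ha hb => ha (k3 a hb), ?_⟩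
    rw [k4]
    ext a
    simp only [Set.mem_ofPred_eq, Set.mem_compl_iff, not_not]
    exact and_comm

/-- **Rooted case of the infinite Lucchesi-Younger conjecture.** -/
theorem result : ∀ (V A : Type) (tail head : A → V),
    (Rooted tail head ∨ Rooted head tail) → HasPair tail head := by
  rintro V A tail head (h | h)
  · exact hasPair_of_rooted h
  · exact hasPair_reverse (hasPair_of_rooted h)

end Pool.Agent.Results.MP_1e1a68_co.RootedCase
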